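import Pool.Agent.H608.Sp.Master
import Pool.Agent.H607.Weyl

/-!
# From the frequencies of intervals to exponential sums, and joint normality
-/

set_option autoImplicit false

namespace Pool.Agent.H608.Sp

open Finset Filter Topology
open Pool.Agent.H607.CF (cnt pos)
open Pool.Agent.W206.ND (ee NT AV)

lemma ee_eq (x : ℝ) : ee x = Complex.exp ((2 * Real.pi * x : ℝ) * Complex.I) := by
  unfold ee
  congr 1
  push_cast
  ring

lemma ee_norm (x : ℝ) : ‖ee x‖ = 1 := by
  rw [ee_eq]
  exact Complex.norm_exp_ofReal_mul_I _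

lemma ee_sub (x y : ℝ) : ‖ee x - ee y‖ ≤ 2 * Real.pi * |x - y| := by
  have h1 : ee x - ee y = ee y * (Complex.exp ((2 * Real.pi * (x - y) : ℝ) * Complex.I) - 1) := by
    rw [mul_sub, mul_one, ee_eq x, ee_eq y, ← Complex.exp_add]
    congr 2
    push_cast
    ring
  rw [h1, norm_mul, ee_norm, one_mul, mul_comm ((2 * Real.pi * (x - y) : ℝ) : ℂ) Complex.I]
  refine (Real.norm_exp_I_mul_ofReal_sub_one_le).trans ?_
  rw [Real.norm_eq_abs, abs_mul, abs_of_pos (by positivity : (0 : ℝ) < 2 * Real.pi)]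

lemma ee_fract (x : ℝ) : ee x = ee (Int.fract x) := by
  have h1 : x = Int.fract x + ⌊x⌋ := (Int.fract_add_floor x).symm
  have h2 : ee (Int.fract x + ⌊x⌋) = ee (Int.fract x) := by
    unfold ee
    push_cast
    rw [mul_add, Complex.exp_add]
    have h3 : (2 * Real.pi * Complex.I * (⌊x⌋ : ℂ)) = (⌊x⌋ : ℂ) * (2 * Real.pi * Complex.I) := by ring
    rw [h3, Complex.exp_int_mul_two_pi_mul_I, mul_one]
  rw [← h2, ← h1]

lemma sum_roots (K : ℕ) (hK : 2 ≤ K) : ∑ k ∈ range K, ee ((k : ℝ) / K) = 0 := by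
  have h1 := Complex.isPrimitiveRoot_exp K (by omega)
  have h2 := h1.geom_sum_eq_zero (by omega)
  rw [← h2]
  refine sum_congr rfl fun k _ => ?_
  rw [← Complex.exp_nat_mul]
  unfold ee
  congr 1
  push_cast
  ring

theorem av_of_freq (b : ℕ) (x : ℝ) (h : Freq b x) : AV b x 1 := by
  classical
  unfold AV
  rw [Metric.tendsto_atTop]
  intro ε hε
  obtain ⟨K, hK⟩ := exists_nat_gt (max 2 (4 * Real.pi / ε))
  have hK2 : 2 ≤ K := by
    have : (2 : ℝ) < K := (le_max_left _ _).trans_lt hK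
    exact_mod_cast this.le
  have hK0 : (0 : ℝ) < K := by exact_mod_cast (by omega : 0 < K)
  have hKε : 2 * Real.pi / K < ε / 2 := by
    have h1 : 4 * Real.pi / ε < K := (le_max_right _ _).trans_lt hK
    rw [div_lt_iff₀ hε] at h1
    rw [div_lt_iff₀ hK0]
    linarith
  set S : ℕ → Set ℕ := fun k => pos b x ((k : ℝ) / K) (((k : ℝ) + 1) / K) with hS
  -- the index of a position
  set idx : ℕ → ℕ := fun i => ⌊Int.fract (x * (b : ℝ) ^ i) * K⌋₊ with hidx
  have hidx_lt : ∀ i, idx i < K := by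
    intro i
    have h1 := Int.fract_lt_one (x * (b : ℝ) ^ i)
    have h2 := Int.fract_nonneg (x * (b : ℝ) ^ i)
    rw [hidx]
    simp only
    rw [Nat.floor_lt (by positivity)]
    nlinarith
  have hmem : ∀ i k, i ∈ S k ↔ idx i = k := by
    intro i k
    have h2 := Int.fract_nonneg (x * (b : ℝ) ^ i)
    rw [hS, hidx]
    simp only [pos, Set.mem_setOf_eq]
    rw [Nat.floor_eq_iff (by positivity), div_le_iff₀ hK0, lt_div_iff₀ hK0]
  have hclose : ∀ i, ‖ee (x * (b : ℝ) ^ i) - ee ((idx i : ℝ) / K)‖ ≤ 2 * Real.pi / K := by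
    intro i
    rw [ee_fract]
    refine (ee_sub _ _).trans ?_
    have h1 := (hmem i (idx i)).2 rfl
    rw [hS] at h1
    simp only [pos, Set.mem_setOf_eq] at h1
    have h2 : |Int.fract (x * (b : ℝ) ^ i) - (idx i : ℝ) / K| ≤ 1 / K := by
      rw [abs_of_nonneg (by linarith)]
      have : ((idx i : ℝ) + 1) / K = (idx i : ℝ) / K + 1 / K := by ring
      linarith
    calc 2 * Real.pi * |Int.fract (x * (b : ℝ) ^ i) - (idx i : ℝ) / K| ≤ 2 * Real.pi * (1 / K) := by
          gcongr
      _ = 2 * Real.pi / K := by ring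
  -- the counting functions
  set c : ℕ → ℕ → ℝ := fun k N => (((range N).filter fun i => idx i = k).card : ℝ) with hc
  have hcnt : ∀ k N, |c k N - cnt (S k) 0 N| ≤ 1 := by
    intro k N
    have e1 : cnt (S k) 0 N = (((Ioc 0 N).filter fun i => idx i = k).card : ℝ) := by
      unfold cnt
      rw [← Set.ncard_coe_finset]
      congr 2
      ext i
      simp only [Set.mem_inter_iff, Set.mem_Ioc, mem_coe, mem_filter, mem_Ioc, hmem]
      tauto
    rw [e1, hc]
    simp only
    have h1 : ((range N).filter fun i => idx i = k) ⊆ insert 0 ((Ioc 0 N).filter fun i => idx i = k) := by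
      intro i hi
      rw [mem_filter, mem_range] at hi
      rw [mem_insert, mem_filter, mem_Ioc]
      by_cases h0 : i = 0
      · exact Or.inl h0
      · exact Or.inr ⟨⟨by omega, by omega⟩, hi.2⟩
    have h2 : ((Ioc 0 N).filter fun i => idx i = k) ⊆ insert N ((range N).filter fun i => idx i = k) := by
      intro i hi
      rw [mem_filter, mem_Ioc] at hi
      rw [mem_insert, mem_filter, mem_range]
      by_cases h0 : i = N
      · exact Or.inl h0
      · exact Or.inr ⟨by omega, hi.2⟩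
    have h3 := (card_le_card h1).trans (card_insert_le _ _)
    have h4 := (card_le_card h2).trans (card_insert_le _ _)
    have h3' : (((range N).filter fun i => idx i = k).card : ℝ) ≤
        (((Ioc 0 N).filter fun i => idx i = k).card : ℝ) + 1 := by exact_mod_cast h3
    have h4' : (((Ioc 0 N).filter fun i => idx i = k).card : ℝ) ≤
        (((range N).filter fun i => idx i = k).card : ℝ) + 1 := by exact_mod_cast h4
    rw [abs_le]
    constructor <;> linarith
  have hlim : ∀ k, k < K → Tendsto (fun N : ℕ => c k N / N) atTop (𝓝 (1 / K)) := by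
    intro k hk
    have hk1 : ((k : ℝ) + 1) / K ≤ 1 := by
      rw [div_le_one hK0]
      exact_mod_cast hk
    have h1 := h ((k : ℝ) / K) (((k : ℝ) + 1) / K) (by positivity) (by gcongr; linarith) hk1
    have h2 : ((k : ℝ) + 1) / K - (k : ℝ) / K = 1 / K := by ring
    rw [h2] at h1
    have h3 : Tendsto (fun N : ℕ => c k N / N - cnt (S k) 0 N / N) atTop (𝓝 0) := by
      refine squeeze_zero_norm (fun N => ?_) (tendsto_const_div_atTop_nhds_zero_nat (1 : ℝ))
      rw [← sub_div, Real.norm_eq_abs, abs_div, Nat.abs_cast]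
      exact div_le_div_of_nonneg_right (hcnt k N) (Nat.cast_nonneg _)
    have h4 := h3.add h1
    rw [zero_add] at h4
    refine h4.congr fun N => ?_
    ring
  have hmain : Tendsto (fun N : ℕ => ∑ k ∈ range K, ((c k N / N : ℝ) : ℂ) * ee ((k : ℝ) / K)) atTop
      (𝓝 0) := by
    have h1 : Tendsto (fun N : ℕ => ∑ k ∈ range K, ((c k N / N : ℝ) : ℂ) * ee ((k : ℝ) / K)) atTop
        (𝓝 (∑ k ∈ range K, ((1 / K : ℝ) : ℂ) * ee ((k : ℝ) / K))) := by
      apply tendsto_finset_sum
      intro k hk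
      apply Tendsto.mul_const
      exact (Complex.continuous_ofReal.tendsto _).comp (hlim k (mem_range.1 hk))
    rwa [← mul_sum, sum_roots K hK2, mul_zero] at h1
  obtain ⟨N₀, hN₀⟩ := (Metric.tendsto_atTop.1 hmain) (ε / 2) (by positivity)
  refine ⟨N₀ + 1, fun N hN => ?_⟩
  have hN0 : (0 : ℝ) < N := by exact_mod_cast (by omega : 0 < N)
  have h1 := hN₀ N (by omega)
  rw [dist_zero_right] at h1 ⊢
  have e1 : ∑ k ∈ range K, ((c k N / N : ℝ) : ℂ) * ee ((k : ℝ) / K) =
      (∑ i ∈ range N, ee ((idx i : ℝ) / K)) / N := by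
    have e2 : ∑ i ∈ range N, ee ((idx i : ℝ) / K) =
        ∑ k ∈ range K, ∑ i ∈ (range N).filter (fun i => idx i = k), ee ((idx i : ℝ) / K) := by
      rw [sum_fiberwise_of_maps_to]
      intro i _
      exact mem_range.2 (hidx_lt i)
    rw [e2, sum_div]
    refine sum_congr rfl fun k _ => ?_
    have e3 : ∑ i ∈ (range N).filter (fun i => idx i = k), ee ((idx i : ℝ) / K) =
        ∑ i ∈ (range N).filter (fun i => idx i = k), ee ((k : ℝ) / K) := by
      refine sum_congr rfl fun i hi => ?_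
      rw [(mem_filter.1 hi).2]
    rw [e3, sum_const, nsmul_eq_mul, hc]
    push_cast
    ring
  rw [e1] at h1
  have e4 : (∑ i ∈ range N, ee (((1 : ℤ) : ℝ) * x * (b : ℝ) ^ i)) / (N : ℂ) =
      (∑ i ∈ range N, (ee (x * (b : ℝ) ^ i) - ee ((idx i : ℝ) / K))) / N +
        (∑ i ∈ range N, ee ((idx i : ℝ) / K)) / N := by
    rw [← add_div, ← sum_add_distrib]
    congr 1
    refine sum_congr rfl fun i _ => ?_
    rw [sub_add_cancel]
    congr 1
    push_cast
    ring
  rw [e4]
  have h2 : ‖(∑ i ∈ range N, (ee (x * (b : ℝ) ^ i) - ee ((idx i : ℝ) / K))) / (N : ℂ)‖ ≤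
      2 * Real.pi / K := by
    rw [norm_div, Complex.norm_natCast, div_le_iff₀ hN0]
    refine (norm_sum_le _ _).trans ?_
    refine (sum_le_sum fun i _ => hclose i).trans ?_
    rw [sum_const, card_range, nsmul_eq_mul, mul_comm]
  calc _ ≤ _ := norm_add_le _ _
    _ < 2 * Real.pi / K + ε / 2 := add_lt_add_of_le_of_lt h2 h1
    _ < ε := by linarith

/-- joint normality from the frequencies of all integral combinations -/
theorem nt_of_freq (b n : ℕ) (ξ : Fin n → ℝ) (hb : 2 ≤ b)
    (h : ∀ h : Fin n → ℤ, h ≠ 0 → Freq b (∑ j, (h j : ℝ) * ξ j)) : NT b ξ :=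
  Pool.Agent.H607.nt_of_weyl b n ξ hb fun v hv => av_of_freq b _ (h v hv)

end Pool.Agent.H608.Sp
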