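import Pool.Agent.H608.Sp.Lim

/-!
# The main theorem on processes
-/

set_option autoImplicit false

namespace Pool.Agent.H608.Sp

open Finset Filter Topology
open Pool.Agent.H607.CF (cnt pos)

/-- the digits of `X` in base `b` have the right frequencies -/
def Freq (b : ℕ) (X : ℝ) : Prop :=
  ∀ α β : ℝ, 0 ≤ α → α < β → β ≤ 1 →
    Tendsto (fun N : ℕ => cnt (pos b X α β) 0 N / N) atTop (𝓝 (β - α))

open Classical in
theorem master : ∃ C : ℝ, 0 < C ∧ ∀ (P : ℕ → Proc) (A : Set ℕ), Rich A → ∀ M : ℕ,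
    ∃ E : Set ℕ, E.Infinite ∧ (∀ k ∈ E, k ∈ A ∧ M ≤ k) ∧
      (∀ K : ℕ, 16 ≤ K → (({k : ℕ | k ∈ E ∧ k ≤ K}.ncard : ℕ) : ℝ) ≤
        C * Real.log (Real.log (Real.log K))) ∧
      ∀ i, ∃ X : ℝ, Tendsto (fun N : ℕ => (P i).val ((range N).filter (· ∈ E))) atTop (𝓝 X) ∧
        ∀ b : ℕ, 2 ≤ b → Freq b X := by
  obtain ⟨γ, hγ0, hγ1, hgood⟩ := exists_good
  obtain ⟨N₁, hN₁⟩ := nseq_sc γ hγ0
  have hlθ : 0 < Real.log (1 + γ / 2) := Real.log_pos (by linarith)
  refine ⟨1 + 1 / Real.log (1 + γ / 2), by positivity, fun P A hA M => ?_⟩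
  choose T hT using hgood P A hA
  set N₀ := max (max N₁ ⌈Real.exp 4⌉₊) (max (T 0) M) with hN₀
  have h1 : N₁ ≤ N₀ := (le_max_left _ _).trans (le_max_left _ _)
  have h2 : ⌈Real.exp 4⌉₊ ≤ N₀ := (le_max_right _ _).trans (le_max_left _ _)
  have h3 : T 0 ≤ N₀ := (le_max_left _ _).trans (le_max_right _ _)
  have h4 : M ≤ N₀ := (le_max_right _ _).trans (le_max_right _ _)
  have S := hN₁ N₀ h1
  set n := nseq γ N₀ with hn
  have hn0 : n 0 = N₀ := rfl
  have h0 : T 0 ≤ 2 ^ n 0 := by
    rw [hn0]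
    exact h3.trans Nat.lt_two_pow_self.le
  obtain ⟨D⟩ := exists_data S T hT h0
  have hmono := D.k_mono S
  refine ⟨D.E, Set.infinite_range_of_injective hmono.injective, ?_, ?_, fun i => ?_⟩
  · rintro k ⟨j, rfl⟩
    refine ⟨D.k_mem j, ?_⟩
    calc M ≤ n 0 := h4
      _ ≤ n j := S.strictMono.monotone (Nat.zero_le j)
      _ ≤ 2 ^ n j := Nat.lt_two_pow_self.le
      _ ≤ D.k j := D.k_ge j
  · intro K hK
    obtain ⟨j, hj1, hj2⟩ := D.F_count S (K + 1)
    have e1 : {k : ℕ | k ∈ D.E ∧ k ≤ K} = ((D.F j : Finset ℕ) : Set ℕ) := by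
      ext k
      rw [mem_coe, hj1]
      simp only [Set.mem_setOf_eq, Order.lt_add_one_iff]
    rw [e1, Set.ncard_coe_finset]
    have e2 : (D.F j).card ≤ j := by
      unfold Data.F
      exact card_image_le.trans (by rw [card_range])
    have e2' : ((D.F j).card : ℝ) ≤ j := by exact_mod_cast e2
    have hlog16 : (1 : ℝ) ≤ Real.log (Real.log K) := by
      rw [Real.le_log_iff_exp_le]
      · have h5 : Real.log 16 ≤ Real.log K := Real.log_le_log (by norm_num) (by exact_mod_cast hK)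
        have h6 : Real.log 16 = 4 * Real.log 2 := by
          rw [show (16 : ℝ) = 2 ^ 4 by norm_num, Real.log_pow]
          norm_num
        have := Real.log_two_gt_d9
        have := Real.exp_one_lt_d9
        linarith
      · apply Real.log_pos
        exact_mod_cast (by omega : 1 < K)
    have hlog3 : 0 ≤ Real.log (Real.log (Real.log K)) := Real.log_nonneg hlog16
    rcases Nat.eq_zero_or_pos j with hj0 | hj0
    · have : ((D.F j).card : ℝ) ≤ 0 := by rw [hj0] at e2' ⊢; simpa using e2'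
      refine this.trans ?_
      positivity
    · have h5 := (hj2 (j - 1)).1 (by omega)
      have h6 : 2 ^ n (j - 1) ≤ K := by
        have := D.k_ge (j - 1)
        omega
      have h7 : (2 : ℝ) ^ n (j - 1) ≤ K := by exact_mod_cast h6
      obtain ⟨h8, h9⟩ := S.count hγ0 (by
        rw [hn0]
        exact (Nat.le_ceil _).trans (by exact_mod_cast h2)) (j - 1) K h7
      have h10 : 1 ≤ Real.log (Real.log (Real.log K)) := by
        rw [Real.le_log_iff_exp_le (by linarith)]
        exact h9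
      have h11 : ((j - 1 : ℕ) : ℝ) ≤ 1 / Real.log (1 + γ / 2) * Real.log (Real.log (Real.log K)) := by
        rw [one_div, ← div_eq_inv_mul, le_div_iff₀ hlθ]
        exact h8
      rw [Nat.cast_sub hj0] at h11
      push_cast at h11
      rw [add_mul, one_mul]
      linarith
  · obtain ⟨X, hX1, hX2⟩ := D.exists_lim S i
    refine ⟨X, ?_, fun b hb α β ha hab hb1 => D.freq S hγ0 hγ1 i X hX2 b hb α β ha hab hb1⟩
    -- the values along all `N`
    choose j hj1 hj2 using fun N => D.F_count S N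
    have e1 : ∀ N, (range N).filter (· ∈ D.E) = D.F (j N) := by
      intro N
      ext k
      rw [mem_filter, mem_range, hj1]
      tauto
    simp only [e1]
    refine hX1.comp ?_
    rw [tendsto_atTop]
    intro l
    filter_upwards [eventually_gt_atTop (D.k l)] with N hN
    exact ((hj2 N l).2 hN).le

end Pool.Agent.H608.Sp
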