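import Mathlib

/-!
# The scales: `n (j + 1) = ⌈n j ^ (1 + γ / 2)⌉`
-/

set_option autoImplicit false

namespace Pool.Agent.H608.Sp

open Finset Filter Topology

/-- the exponents of the scales -/
noncomputable def nseq (γ : ℝ) (N₀ : ℕ) : ℕ → ℕ
  | 0 => N₀
  | j + 1 => ⌈(nseq γ N₀ j : ℝ) ^ (1 + γ / 2)⌉₊

lemma nseq_ge (γ : ℝ) (N₀ j : ℕ) : (nseq γ N₀ j : ℝ) ^ (1 + γ / 2) ≤ nseq γ N₀ (j + 1) :=
  Nat.le_ceil _

lemma nseq_le (γ : ℝ) (N₀ j : ℕ) : (nseq γ N₀ (j + 1) : ℝ) ≤ (nseq γ N₀ j : ℝ) ^ (1 + γ / 2) + 1 :=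
  (Nat.ceil_lt_add_one (Real.rpow_nonneg (Nat.cast_nonneg _) _)).le

/-- the threshold -/
lemma exists_thr (γ : ℝ) (hγ : 0 < γ) : ∃ N₁ : ℕ, 2 ≤ N₁ ∧ ∀ n : ℕ, N₁ ≤ n →
    2 * (n : ℝ) ≤ (n : ℝ) ^ (1 + γ / 2) ∧
      ((n : ℝ) ^ (1 + γ / 2) + 1) * Real.log 2 ≤ ((n : ℝ) * Real.log 2) ^ (1 + γ) := by
  have h1 : Tendsto (fun n : ℕ => (n : ℝ) ^ (γ / 2)) atTop atTop :=
    (tendsto_rpow_atTop (by positivity)).comp tendsto_natCast_atTop_atTop
  have hl2 : 0 < Real.log 2 := Real.log_pos (by norm_num)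
  obtain ⟨N, hN⟩ := eventually_atTop.1 ((h1.eventually_ge_atTop 2).and
    (h1.eventually_ge_atTop (2 * Real.log 2 / (Real.log 2) ^ (1 + γ))))
  refine ⟨max N 2, le_max_right _ _, fun n hn => ?_⟩
  obtain ⟨a1, a2⟩ := hN n ((le_max_left _ _).trans hn)
  have hn2 : 2 ≤ n := (le_max_right _ _).trans hn
  have hn0 : (2 : ℝ) ≤ n := by exact_mod_cast hn2
  have e1 : (n : ℝ) ^ (1 + γ / 2) = n * (n : ℝ) ^ (γ / 2) := by
    rw [Real.rpow_add (by linarith), Real.rpow_one]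
  have h3 : 1 ≤ (n : ℝ) ^ (1 + γ / 2) := Real.one_le_rpow (by linarith) (by linarith)
  refine ⟨by rw [e1]; nlinarith, ?_⟩
  rw [Real.mul_rpow (by linarith) hl2.le]
  have e2 : (n : ℝ) ^ (1 + γ) = (n : ℝ) ^ (1 + γ / 2) * (n : ℝ) ^ (γ / 2) := by
    rw [← Real.rpow_add (by linarith)]
    congr 1
    ring
  rw [e2]
  have h4 : 0 < (Real.log 2) ^ (1 + γ) := Real.rpow_pos_of_pos hl2 _
  rw [div_le_iff₀ h4] at a2
  calc ((n : ℝ) ^ (1 + γ / 2) + 1) * Real.log 2 ≤ (2 * (n : ℝ) ^ (1 + γ / 2)) * Real.log 2 := by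
        gcongr
        linarith
    _ = (n : ℝ) ^ (1 + γ / 2) * (2 * Real.log 2) := by ring
    _ ≤ (n : ℝ) ^ (1 + γ / 2) * ((n : ℝ) ^ (γ / 2) * (Real.log 2) ^ (1 + γ)) := by gcongr
    _ = _ := by ring

section

variable {γ : ℝ} {N₀ : ℕ}

/-- the properties of the scales -/
structure Sc (γ : ℝ) (n : ℕ → ℕ) : Prop where
  two : ∀ j, 2 ≤ n j
  dbl : ∀ j, 2 * n j ≤ n (j + 1)
  up : ∀ j, (n (j + 1) : ℝ) * Real.log 2 ≤ ((n j : ℝ) * Real.log 2) ^ (1 + γ)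
  lo : ∀ j, (n j : ℝ) ^ (1 + γ / 2) ≤ n (j + 1)

lemma nseq_sc (γ : ℝ) (hγ : 0 < γ) : ∃ N₁ : ℕ, ∀ N₀ : ℕ, N₁ ≤ N₀ → Sc γ (nseq γ N₀) := by
  obtain ⟨N₁, h2, hN₁⟩ := exists_thr γ hγ
  refine ⟨N₁, fun N₀ hN₀ => ?_⟩
  have hl2 : 0 < Real.log 2 := Real.log_pos (by norm_num)
  have hdbl : ∀ j, N₁ ≤ nseq γ N₀ j → 2 * nseq γ N₀ j ≤ nseq γ N₀ (j + 1) := by
    intro j hj
    have h1 := (hN₁ _ hj).1.trans (nseq_ge γ N₀ j)
    exact_mod_cast h1
  have hge : ∀ j, N₁ ≤ nseq γ N₀ j := by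
    intro j
    induction j with
    | zero => exact hN₀
    | succ j ih =>
      have := hdbl j ih
      omega
  refine ⟨fun j => h2.trans (hge j), fun j => hdbl j (hge j), fun j => ?_, fun j => nseq_ge γ N₀ j⟩
  refine le_trans ?_ (hN₁ _ (hge j)).2
  gcongr
  exact nseq_le γ N₀ j

end

namespace Sc

variable {γ : ℝ} {n : ℕ → ℕ} (S : Sc γ n)

include S

lemma strictMono : StrictMono n := strictMono_nat_of_lt_succ fun j => by
  have := S.two j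
  have := S.dbl j
  omega

lemma add_le (j l : ℕ) : n j + l ≤ n (j + l) := by
  induction l with
  | zero => simp
  | succ l ih =>
    have := S.two (j + l)
    have := S.dbl (j + l)
    rw [← add_assoc j l 1]
    omega

lemma two_add (j : ℕ) : j + 2 ≤ n j := by
  have := S.two 0
  have h3 := S.add_le 0 j
  rw [zero_add] at h3
  omega

lemma tendsto : Tendsto n atTop atTop := S.strictMono.tendsto_atTop

lemma tendsto' : Tendsto (fun j => (n j : ℝ)) atTop atTop :=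
  tendsto_natCast_atTop_atTop.comp S.tendsto

lemma pos (j : ℕ) : (0 : ℝ) < n j := by
  have := S.two j
  exact_mod_cast (by omega : 0 < n j)

lemma ratio (hγ : 0 < γ) : Tendsto (fun j => (n j : ℝ) / n (j + 1)) atTop (𝓝 0) := by
  have h1 : Tendsto (fun j => (n j : ℝ) ^ (-(γ / 2))) atTop (𝓝 0) :=
    (tendsto_rpow_neg_atTop (by positivity)).comp S.tendsto'
  refine squeeze_zero (fun j => by have := S.pos j; positivity) (fun j => ?_) h1
  have h2 := S.pos j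
  have h3 := S.pos (j + 1)
  rw [div_le_iff₀ h3]
  calc (n j : ℝ) = (n j : ℝ) ^ (-(γ / 2)) * (n j : ℝ) ^ (1 + γ / 2) := by
        rw [← Real.rpow_add h2, show -(γ / 2) + (1 + γ / 2) = 1 by ring, Real.rpow_one]
    _ ≤ (n j : ℝ) ^ (-(γ / 2)) * n (j + 1) := by
        gcongr
        exact S.lo j

lemma growth (hγ : 0 < γ) (j : ℕ) : (1 + γ / 2) ^ j * Real.log (n 0) ≤ Real.log (n j) := by
  induction j with
  | zero => simp
  | succ j ih =>
    have h2 := S.pos j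
    have h1 := Real.log_le_log (Real.rpow_pos_of_pos h2 _) (S.lo j)
    rw [Real.log_rpow h2] at h1
    calc (1 + γ / 2) ^ (j + 1) * Real.log (n 0) = (1 + γ / 2) * ((1 + γ / 2) ^ j * Real.log (n 0)) := by
          ring
      _ ≤ (1 + γ / 2) * Real.log (n j) := by gcongr
      _ ≤ _ := h1

/-- the number of the scales up to `K` -/
lemma count (hγ : 0 < γ) (h0 : Real.exp 4 ≤ n 0) (j : ℕ) (K : ℝ) (hK : (2 : ℝ) ^ n j ≤ K) :
    (j : ℝ) * Real.log (1 + γ / 2) ≤ Real.log (Real.log (Real.log K)) ∧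
      Real.exp 1 ≤ Real.log (Real.log K) := by
  have hl2 := Real.log_two_gt_d9
  have hl2' := Real.log_two_lt_d9
  have hn := S.pos j
  have h1 : (n j : ℝ) * (1 / 2) ≤ Real.log K := by
    have h2 := Real.log_le_log (by positivity) hK
    rw [Real.log_pow] at h2
    nlinarith
  have h3 := Real.log_le_log (by positivity) h1
  rw [Real.log_mul hn.ne' (by norm_num), one_div, Real.log_inv] at h3
  have h4 := S.growth hγ j
  have h5 : 4 ≤ Real.log (n 0) := by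
    rw [Real.le_log_iff_exp_le (S.pos 0)]
    exact h0
  have h6 : (1 : ℝ) ≤ (1 + γ / 2) ^ j := one_le_pow₀ (by linarith)
  have h7 : (1 + γ / 2) ^ j * 4 ≤ (1 + γ / 2) ^ j * Real.log (n 0) := by gcongr
  have h8 : Real.exp 1 ≤ Real.log (Real.log K) := by
    have := Real.exp_one_lt_d9
    linarith
  have h9 : (1 + γ / 2) ^ j ≤ Real.log (Real.log K) := by linarith
  refine ⟨?_, h8⟩
  rw [← Real.log_pow]
  exact Real.log_le_log (by positivity) h9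

end Sc

end Pool.Agent.H608.Sp
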