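import Pool.Agent.H608.Sp.Stage
import Pool.Agent.H608.Sp.Scale

/-!
# Processes, and the construction of the sparse set
-/

set_option autoImplicit false

namespace Pool.Agent.H608.Sp

open Finset Filter Topology
open Pool.Agent.Helper478.Surds (EquiW)

/-- a real number which depends on a finite set of places; adding the place `k` (larger than all
places before) changes the number by `amp / (k + 1 - s)` -/
structure Proc where
  val : Finset ℕ → ℝ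
  amp : Finset ℕ → ℝ
  s : ℝ
  c : ℝ
  hs0 : 0 ≤ s
  hs1 : s < 1
  hc : 1 ≤ c
  step : ∀ (F : Finset ℕ) (k : ℕ), (∀ j ∈ F, j < k) →
    val (insert k F) = val F + amp F * (((k + 1 : ℕ) : ℝ) - s)⁻¹
  lo : ∀ F : Finset ℕ, ∑ k ∈ F, (1 : ℝ) / (k + 1) ≤ 1 / 2 → c⁻¹ ≤ |amp F|
  hi : ∀ F : Finset ℕ, ∑ k ∈ F, (1 : ℝ) / (k + 1) ≤ 1 / 2 → |amp F| ≤ c

/-- the set `A` has at least `H exp (- (log H) ^ (2 / 5))` elements in `[H, 2 H)`, for large `H` -/
def Rich (A : Set ℕ) : Prop :=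
  ∀ᶠ H : ℕ in atTop, H * Real.exp (-(Real.log H) ^ (2 / 5 : ℝ)) ≤
    (({k : ℕ | k ∈ A ∧ H ≤ k ∧ k < 2 * H}.ncard : ℕ) : ℝ)

/-- the place `k` is good for the first `p` processes, at the scale `H` -/
def Good (P : ℕ → Proc) (A : Set ℕ) (γ : ℝ) (p H : ℕ) (F : Finset ℕ) (k : ℕ) : Prop :=
  k ∈ A ∧ H ≤ k ∧ k < 2 * H ∧ ∀ i < p, ∀ r : ℕ, 2 ≤ r → r ≤ p →
    ¬ BadY (Real.log H) γ (1 / ((p : ℝ) + 1)) r
      ((P i).val F + (P i).amp F * (((k + 1 : ℕ) : ℝ) - (P i).s)⁻¹)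

theorem exists_good : ∃ γ : ℝ, 0 < γ ∧ γ ≤ 1 / 20 ∧ ∀ (P : ℕ → Proc) (A : Set ℕ), Rich A →
    ∀ p : ℕ, ∃ T : ℕ, ∀ H : ℕ, T ≤ H → ∀ F : Finset ℕ, ∑ k ∈ F, (1 : ℝ) / (k + 1) ≤ 1 / 2 →
      ∃ k, Good P A γ p H F k := by
  classical
  obtain ⟨γ, hγ0, hγ1, hst⟩ := stage
  refine ⟨γ, hγ0, hγ1, fun P A hA p => ?_⟩
  obtain ⟨H₀, hH₀⟩ := hst (1 / ((p : ℝ) + 1)) (by positivity) p
  have hlog : Tendsto (fun N : ℕ => Real.log N) atTop atTop :=
    Real.tendsto_log_atTop.comp tendsto_natCast_atTop_atTop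
  have hL : Tendsto (fun N : ℕ => (Real.log N) ^ (2 / 5 : ℝ)) atTop atTop :=
    (tendsto_rpow_atTop (by norm_num)).comp hlog
  have hexp : Tendsto (fun N : ℕ => Real.exp ((Real.log N) ^ (2 / 5 : ℝ))) atTop atTop :=
    Real.tendsto_exp_atTop.comp hL
  have ev1 : ∀ᶠ N : ℕ in atTop, ∀ i ∈ range p, (P i).c ≤ Real.exp ((Real.log N) ^ (2 / 5 : ℝ)) := by
    rw [Filter.eventually_all_finset]
    intro i _
    exact hexp.eventually_ge_atTop _
  obtain ⟨T, hT⟩ := eventually_atTop.1 (ev1.and ((hexp.eventually_gt_atTop ((p : ℝ) * (p + 1))).and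
    (hA.and (eventually_ge_atTop (max H₀ 1)))))
  refine ⟨T, fun H hH F hF => ?_⟩
  obtain ⟨g1, g2, g3, g4⟩ := hT H hH
  have hH0' : H₀ ≤ H := (le_max_left _ _).trans g4
  have hH1 : 1 ≤ H := (le_max_right _ _).trans g4
  have hHpos : (0 : ℝ) < H := by exact_mod_cast hH1
  set L := (Real.log H) ^ (2 / 5 : ℝ) with hLdef
  by_contra hcon
  push Not at hcon
  set Bad : ℕ → ℕ → Set ℕ := fun i r => {m : ℕ | H < m ∧ m ≤ 2 * H ∧
    BadY (Real.log H) γ (1 / ((p : ℝ) + 1)) r ((P i).val F + (P i).amp F * ((m : ℝ) - (P i).s)⁻¹)} with hBad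
  have hfin : ∀ i r, (Bad i r).Finite := fun i r => (Set.finite_Iic (2 * H)).subset fun m hm => hm.2.1
  have hcount : ∀ i ∈ range p, ∀ r ∈ Icc 2 p, ((Bad i r).ncard : ℝ) ≤ H * Real.exp (-(2 * L)) := by
    intro i hi r hr
    rw [mem_Icc] at hr
    apply hH₀ H r _ _ _ hH0' hr.1 hr.2 (P i).hs0 (P i).hs1
    · have h1 := (P i).lo F hF
      have h2 := g1 i hi
      refine le_trans ?_ h1
      rw [Real.exp_neg]
      have := (P i).hc
      gcongr
    · exact ((P i).hi F hF).trans (g1 i hi)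
  have hsub : (fun k => k + 1) '' {k : ℕ | k ∈ A ∧ H ≤ k ∧ k < 2 * H} ⊆
      ⋃ q ∈ (range p ×ˢ Icc 2 p), Bad q.1 q.2 := by
    rintro m ⟨k, ⟨hk1, hk2, hk3⟩, rfl⟩
    have h1 := hcon k
    unfold Good at h1
    push Not at h1
    obtain ⟨i, hi, r, hr1, hr2, hb⟩ := h1 hk1 hk2 hk3
    simp only [Set.mem_iUnion]
    refine ⟨(i, r), ?_, ?_⟩
    · rw [mem_product, mem_range, mem_Icc]
      exact ⟨hi, hr1, hr2⟩
    · exact ⟨by show H < k + 1; omega, by show k + 1 ≤ 2 * H; omega, hb⟩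
  have h1 : (({k : ℕ | k ∈ A ∧ H ≤ k ∧ k < 2 * H}.ncard : ℕ) : ℝ) ≤
      ∑ q ∈ (range p ×ˢ Icc 2 p), ((Bad q.1 q.2).ncard : ℝ) := by
    have h2 : {k : ℕ | k ∈ A ∧ H ≤ k ∧ k < 2 * H}.ncard ≤
        ∑ q ∈ (range p ×ˢ Icc 2 p), (Bad q.1 q.2).ncard := by
      rw [← Set.ncard_image_of_injective _ (add_left_injective 1)]
      refine (Set.ncard_le_ncard hsub ?_).trans (Finset.set_ncard_biUnion_le _ _)
      exact Set.Finite.biUnion (Finset.finite_toSet _) fun q _ => hfin q.1 q.2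
    exact_mod_cast h2
  have h2 : ∑ q ∈ (range p ×ˢ Icc 2 p), ((Bad q.1 q.2).ncard : ℝ) ≤
      (p : ℝ) * p * (H * Real.exp (-(2 * L))) := by
    have h5 : ∑ q ∈ (range p ×ˢ Icc 2 p), ((Bad q.1 q.2).ncard : ℝ) ≤
        ∑ q ∈ (range p ×ˢ Icc 2 p), H * Real.exp (-(2 * L)) := by
      apply sum_le_sum
      intro q hq
      rw [mem_product] at hq
      exact hcount q.1 hq.1 q.2 hq.2
    refine h5.trans ?_
    rw [sum_const, nsmul_eq_mul, card_product, card_range, Nat.card_Icc]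
    push_cast
    gcongr
    omega
  have h3 : Real.exp (-(2 * L)) = Real.exp (-L) * (Real.exp L)⁻¹ := by
    rw [← Real.exp_neg, ← Real.exp_add]
    congr 1
    ring
  have h4 : (p : ℝ) * p * (H * Real.exp (-(2 * L))) < H * Real.exp (-L) := by
    rw [h3]
    have h5 : (p : ℝ) * p < Real.exp L := by
      have : (0 : ℝ) ≤ p := Nat.cast_nonneg p
      nlinarith
    have h6 : (p : ℝ) * p * (Real.exp L)⁻¹ < 1 := by
      rw [← div_eq_mul_inv, div_lt_one (Real.exp_pos L)]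
      exact h5
    have h7 : 0 < H * Real.exp (-L) := by positivity
    calc (p : ℝ) * p * (H * (Real.exp (-L) * (Real.exp L)⁻¹)) =
        ((p : ℝ) * p * (Real.exp L)⁻¹) * (H * Real.exp (-L)) := by ring
      _ < 1 * (H * Real.exp (-L)) := by gcongr
      _ = _ := one_mul _
  linarith

/-- the precision at the scale `H` -/
noncomputable def prec (T : ℕ → ℕ) (H : ℕ) : ℕ := Nat.findGreatest (fun p => ∀ q ≤ p, T q ≤ H) H

lemma prec_spec (T : ℕ → ℕ) (H : ℕ) (h0 : T 0 ≤ H) : T (prec T H) ≤ H := by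
  have h1 : ∀ q ≤ prec T H, T q ≤ H := by
    apply Nat.findGreatest_spec (P := fun p => ∀ q ≤ p, T q ≤ H) (Nat.zero_le H)
    intro q hq
    rw [Nat.le_zero.1 hq]
    exact h0
  exact h1 _ le_rfl

lemma prec_tendsto (T : ℕ → ℕ) : Tendsto (prec T) atTop atTop := by
  rw [tendsto_atTop]
  intro p
  have h1 : ∀ᶠ H : ℕ in atTop, ∀ q ∈ range (p + 1), T q ≤ H := by
    rw [Filter.eventually_all_finset]
    intro q _
    exact eventually_ge_atTop _
  filter_upwards [h1, eventually_ge_atTop p] with H hH hp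
  exact Nat.le_findGreatest hp fun q hq => hH q (mem_range.2 (by omega))

end Pool.Agent.H608.Sp
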