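import Pool.Agent.H608.Sp.Proc

/-!
# The construction of the sparse set
-/

set_option autoImplicit false

namespace Pool.Agent.H608.Sp

open Finset Filter Topology

/-- the data of the construction -/
structure Data (γ : ℝ) (P : ℕ → Proc) (A : Set ℕ) (n : ℕ → ℕ) where
  k : ℕ → ℕ
  pr : ℕ → ℕ
  tends : Tendsto pr atTop atTop
  good : ∀ j, Good P A γ (pr j) (2 ^ n j) ((range j).image k) (k j)
  sum : ∀ j, ∑ i ∈ (range j).image k, (1 : ℝ) / (i + 1) ≤ 1 / 2

open Classical in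
/-- the next place -/
noncomputable def pick (P : ℕ → Proc) (A : Set ℕ) (γ : ℝ) (p H : ℕ) (F : Finset ℕ) : ℕ :=
  if h : ∃ k, Good P A γ p H F k then h.choose else 0

lemma pick_good {P : ℕ → Proc} {A : Set ℕ} {γ : ℝ} {p H : ℕ} {F : Finset ℕ}
    (h : ∃ k, Good P A γ p H F k) : Good P A γ p H F (pick P A γ p H F) := by
  unfold pick
  rw [dif_pos h]
  exact h.choose_spec

/-- the finite sets of the construction -/
noncomputable def FF (P : ℕ → Proc) (A : Set ℕ) (γ : ℝ) (n p : ℕ → ℕ) : ℕ → Finset ℕ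
  | 0 => ∅
  | j + 1 => insert (pick P A γ (p j) (2 ^ n j) (FF P A γ n p j)) (FF P A γ n p j)

lemma FF_eq (P : ℕ → Proc) (A : Set ℕ) (γ : ℝ) (n p : ℕ → ℕ) (j : ℕ) :
    FF P A γ n p j = (range j).image fun i => pick P A γ (p i) (2 ^ n i) (FF P A γ n p i) := by
  induction j with
  | zero => rfl
  | succ j ih =>
    rw [range_add_one, image_insert, ← ih]
    rfl

theorem exists_data {γ : ℝ} {P : ℕ → Proc} {A : Set ℕ} {n : ℕ → ℕ} (S : Sc γ n) (T : ℕ → ℕ)
    (hT : ∀ p : ℕ, ∀ H : ℕ, T p ≤ H → ∀ F : Finset ℕ, ∑ k ∈ F, (1 : ℝ) / (k + 1) ≤ 1 / 2 →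
      ∃ k, Good P A γ p H F k) (h0 : T 0 ≤ 2 ^ n 0) : Nonempty (Data γ P A n) := by
  have hH : Tendsto (fun j => 2 ^ n j) atTop atTop :=
    (tendsto_pow_atTop_atTop_of_one_lt (one_lt_two : (1 : ℕ) < 2)).comp S.tendsto
  set pr : ℕ → ℕ := fun j => prec T (2 ^ n j) with hpr
  have hTpr : ∀ j, T (pr j) ≤ 2 ^ n j := by
    intro j
    apply prec_spec
    refine h0.trans ?_
    exact Nat.pow_le_pow_right (by norm_num) (S.strictMono.monotone (Nat.zero_le j))
  set FJ := FF P A γ n pr with hFJ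
  have hstep : ∀ j, ∑ k ∈ FJ j, (1 : ℝ) / (k + 1) ≤ 1 / 2 →
      Good P A γ (pr j) (2 ^ n j) (FJ j) (pick P A γ (pr j) (2 ^ n j) (FJ j)) := fun j hj =>
    pick_good (hT (pr j) _ (hTpr j) _ hj)
  have hsum : ∀ j, ∑ k ∈ FJ j, (1 : ℝ) / (k + 1) ≤ 1 / 2 - 1 / 2 ^ (j + 1) := by
    intro j
    induction j with
    | zero => simp [hFJ, FF]
    | succ j ih =>
      have h1 : ∑ k ∈ FJ j, (1 : ℝ) / (k + 1) ≤ 1 / 2 := by
        have : (0 : ℝ) < 1 / 2 ^ (j + 1) := by positivity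
        linarith
      obtain ⟨g1, g2, g3, g4⟩ := hstep j h1
      set q := pick P A γ (pr j) (2 ^ n j) (FJ j) with hq
      have h2 : FJ (j + 1) = insert q (FJ j) := rfl
      have h3 : ∑ k ∈ FJ (j + 1), (1 : ℝ) / (k + 1) ≤ 1 / (q + 1) + ∑ k ∈ FJ j, (1 : ℝ) / (k + 1) := by
        rw [h2]
        by_cases hmem : q ∈ FJ j
        · rw [insert_eq_of_mem hmem]
          have : (0 : ℝ) ≤ 1 / (q + 1) := by positivity
          linarith
        · rw [sum_insert hmem]
      have h4 : (1 : ℝ) / (q + 1) ≤ 1 / 2 ^ (j + 2) := by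
        apply one_div_le_one_div_of_le (by positivity)
        have h5 : (2 : ℝ) ^ (j + 2) ≤ 2 ^ n j := pow_le_pow_right₀ (by norm_num) (S.two_add j)
        have h6 : ((2 ^ n j : ℕ) : ℝ) ≤ q := by exact_mod_cast g2
        push_cast at h6
        linarith
      have h5 : (1 : ℝ) / 2 ^ (j + 1) = 2 * (1 / 2 ^ (j + 2)) := by
        rw [pow_succ _ (j + 1)]
        field_simp
      have h6 : (1 : ℝ) / 2 ^ (j + 1 + 1) = 1 / 2 ^ (j + 2) := rfl
      rw [h6]
      linarith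
  have hsum' : ∀ j, ∑ k ∈ FJ j, (1 : ℝ) / (k + 1) ≤ 1 / 2 := fun j => by
    have h1 := hsum j
    have : (0 : ℝ) < 1 / 2 ^ (j + 1) := by positivity
    linarith
  refine ⟨⟨fun i => pick P A γ (pr i) (2 ^ n i) (FJ i), pr, (prec_tendsto T).comp hH, fun j => ?_, fun j => ?_⟩⟩
  · rw [← FF_eq]
    exact hstep j (hsum' j)
  · rw [← FF_eq]
    exact hsum' j

namespace Data

variable {γ : ℝ} {P : ℕ → Proc} {A : Set ℕ} {n : ℕ → ℕ} (D : Data γ P A n)

/-- the sparse set -/
def E : Set ℕ := Set.range D.k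

lemma k_ge (j : ℕ) : 2 ^ n j ≤ D.k j := (D.good j).2.1

lemma k_lt (j : ℕ) : D.k j < 2 * 2 ^ n j := (D.good j).2.2.1

lemma k_mem (j : ℕ) : D.k j ∈ A := (D.good j).1

lemma k_mono (S : Sc γ n) : StrictMono D.k := strictMono_nat_of_lt_succ fun j => by
  have h1 := D.k_lt j
  have h2 := D.k_ge (j + 1)
  have h3 : 2 * 2 ^ n j ≤ 2 ^ n (j + 1) := by
    rw [← pow_succ']
    exact Nat.pow_le_pow_right (by norm_num) (S.strictMono (Nat.lt_succ_self j))
  omega

/-- the finite set of the first `j` places -/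
def F (j : ℕ) : Finset ℕ := (range j).image D.k

lemma F_succ (j : ℕ) : D.F (j + 1) = insert (D.k j) (D.F j) := by
  unfold F
  rw [range_add_one, image_insert]

lemma F_lt (S : Sc γ n) (j : ℕ) : ∀ i ∈ D.F j, i < D.k j := by
  intro i hi
  unfold F at hi
  rw [mem_image] at hi
  obtain ⟨l, hl, rfl⟩ := hi
  exact D.k_mono S (mem_range.1 hl)

/-- the places below `N` -/
lemma F_count (S : Sc γ n) (N : ℕ) : ∃ j, (∀ i, i ∈ D.F j ↔ i ∈ D.E ∧ i < N) ∧
    (∀ l, l < j ↔ D.k l < N) := by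
  have hmono := D.k_mono S
  have hex : ∃ j, N ≤ D.k j := ⟨N, hmono.id_le N⟩
  refine ⟨Nat.find hex, ?_, ?_⟩
  · intro i
    unfold F E
    rw [mem_image]
    constructor
    · rintro ⟨l, hl, rfl⟩
      refine ⟨⟨l, rfl⟩, ?_⟩
      have := Nat.find_min hex (mem_range.1 hl)
      omega
    · rintro ⟨⟨l, rfl⟩, hl⟩
      refine ⟨l, ?_, rfl⟩
      rw [mem_range]
      by_contra hcon
      push Not at hcon
      have h1 := hmono.monotone hcon
      have h2 := Nat.find_spec hex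
      omega
  · intro l
    constructor
    · intro hl
      have := Nat.find_min hex hl
      omega
    · intro hl
      by_contra hcon
      push Not at hcon
      have h1 := hmono.monotone hcon
      have h2 := Nat.find_spec hex
      omega

/-- the increments of the values -/
lemma val_succ (S : Sc γ n) (i j : ℕ) : (P i).val (D.F (j + 1)) =
    (P i).val (D.F j) + (P i).amp (D.F j) * (((D.k j + 1 : ℕ) : ℝ) - (P i).s)⁻¹ := by
  rw [D.F_succ]
  exact (P i).step _ _ (D.F_lt S j)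

lemma val_diff (S : Sc γ n) (i j : ℕ) :
    |(P i).val (D.F (j + 1)) - (P i).val (D.F j)| ≤ (P i).c * (1 / 2) ^ n j := by
  rw [D.val_succ S, add_sub_cancel_left, abs_mul]
  have h1 := (P i).hi (D.F j) (D.sum j)
  have h2 : (0 : ℝ) < 2 ^ n j := by positivity
  have h3 : ((2 ^ n j : ℕ) : ℝ) ≤ D.k j := by exact_mod_cast D.k_ge j
  push_cast at h3
  have h4 := (P i).hs1
  have h5 : |(((D.k j + 1 : ℕ) : ℝ) - (P i).s)⁻¹| ≤ (1 / 2) ^ n j := by
    push_cast
    have h6 : (0 : ℝ) < (D.k j : ℝ) + 1 - (P i).s := by linarith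
    rw [abs_of_pos (by positivity), one_div, inv_pow]
    gcongr
    linarith
  exact mul_le_mul h1 h5 (abs_nonneg _) (by linarith [(P i).hc])

lemma exists_lim (S : Sc γ n) (i : ℕ) : ∃ X : ℝ, Tendsto (fun j => (P i).val (D.F j)) atTop (𝓝 X) ∧
    ∀ j, |X - (P i).val (D.F j)| ≤ 2 * (P i).c * (1 / 2) ^ n j := by
  have hc : 0 ≤ (P i).c := by linarith [(P i).hc]
  have hbd : ∀ j l, dist ((P i).val (D.F (j + l))) ((P i).val (D.F (j + l + 1))) ≤
      (P i).c * (1 / 2) ^ n j * (1 / 2) ^ l := by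
    intro j l
    rw [dist_comm, Real.dist_eq]
    refine (D.val_diff S i (j + l)).trans ?_
    rw [mul_assoc, ← pow_add]
    apply mul_le_mul_of_nonneg_left _ hc
    exact pow_le_pow_of_le_one (by norm_num) (by norm_num) (S.add_le j l)
  have hcau : CauchySeq fun j => (P i).val (D.F j) := by
    apply cauchySeq_of_le_geometric (1 / 2) ((P i).c * (1 / 2) ^ n 0) (by norm_num)
    intro l
    have := hbd 0 l
    rwa [zero_add] at this
  obtain ⟨X, hX⟩ := cauchySeq_tendsto_of_complete hcau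
  refine ⟨X, hX, fun j => ?_⟩
  have h1 : Tendsto (fun l => (P i).val (D.F (j + l))) atTop (𝓝 X) := by
    refine hX.comp ?_
    exact tendsto_atTop_mono (fun l => Nat.le_add_left l j) tendsto_id
  have h2 := dist_le_of_le_geometric_of_tendsto₀ (1 / 2) ((P i).c * (1 / 2) ^ n j) (by norm_num)
    (hbd j) h1
  rw [add_zero, dist_comm, Real.dist_eq] at h2
  refine h2.trans (le_of_eq ?_)
  ring

end Data

end Pool.Agent.H608.Sp
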