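import Pool.Agent.H608.Sp.Build
import Pool.Agent.H607.CF.Norm

/-!
# The frequencies of the digits of the limits
-/

set_option autoImplicit false

namespace Pool.Agent.H608.Sp

open Finset Filter Topology
open Pool.Agent.Helper478.Surds (EquiW)
open Pool.Agent.H607.CF (cnt dev pos freq_of_windows pert)

namespace Data

variable {γ : ℝ} {P : ℕ → Proc} {A : Set ℕ} {n : ℕ → ℕ} (D : Data γ P A n)

set_option maxHeartbeats 4000000 in
theorem freq (S : Sc γ n) (hγ0 : 0 < γ) (hγ1 : γ ≤ 1 / 20) (i : ℕ) (X : ℝ)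
    (hX : ∀ j, |X - (P i).val (D.F j)| ≤ 2 * (P i).c * (1 / 2) ^ n j) (r : ℕ) (hr : 2 ≤ r)
    (α β : ℝ) (ha : 0 ≤ α) (hab : α < β) (hb : β ≤ 1) :
    Tendsto (fun N : ℕ => cnt (pos r X α β) 0 N / N) atTop (𝓝 (β - α)) := by
  have hl : 0 < Real.log r := Real.log_pos (by exact_mod_cast hr)
  have hl2 : 0 < Real.log 2 := Real.log_pos (by norm_num)
  have hl2' := Real.log_two_lt_d9
  have hl2'' := Real.log_two_gt_d9
  obtain ⟨l, hldef⟩ : ∃ l, l = Real.log r := ⟨_, rfl⟩
  rw [← hldef] at hl
  have hc1 := (P i).hc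
  obtain ⟨y, hy⟩ : ∃ y : ℕ → ℝ, y = fun j => (n j : ℝ) * Real.log 2 := ⟨_, rfl⟩
  have hyj : ∀ j, y j = (n j : ℝ) * Real.log 2 := fun j => by rw [hy]
  obtain ⟨δ, hδ⟩ : ∃ δ : ℕ → ℝ, δ = fun j => 1 / ((D.pr j : ℝ) + 1) := ⟨_, rfl⟩
  have hδj : ∀ j, δ j = 1 / ((D.pr j : ℝ) + 1) := fun j => by rw [hδ]
  obtain ⟨q, hq⟩ : ∃ q : ℕ → ℝ, q = fun j => Real.sqrt (n j) := ⟨_, rfl⟩
  have hqj : ∀ j, q j = Real.sqrt (n j) := fun j => by rw [hq]
  have hn := S.pos
  have hypos : ∀ j, 0 < y j := fun j => by rw [hyj]; have := hn j; positivity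
  have hqpos : ∀ j, 0 ≤ q j := fun j => by rw [hqj]; positivity
  have hqy : ∀ j, q j ≤ 3 * y j := by
    intro j
    rw [hqj, hyj, Real.sqrt_le_left (by have := hn j; positivity)]
    have h1 : (1 : ℝ) ≤ n j := by
      have := S.two j
      exact_mod_cast (by omega : 1 ≤ n j)
    have h2 : (1 : ℝ) ≤ 3 * Real.log 2 := by linarith
    calc (n j : ℝ) ≤ n j * n j := by nlinarith
      _ ≤ (n j * (3 * Real.log 2)) * (n j * (3 * Real.log 2)) := by
        have h3 : (n j : ℝ) ≤ n j * (3 * Real.log 2) := by nlinarith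
        nlinarith
      _ = _ := by ring
  have hδpos : ∀ j, 0 < δ j := fun j => by rw [hδj]; positivity
  have hδ1 : ∀ j, δ j ≤ 1 := fun j => by
    rw [hδj, div_le_one (by positivity)]
    have : (0 : ℝ) ≤ D.pr j := Nat.cast_nonneg _
    linarith
  -- limits
  have hyt : Tendsto y atTop atTop := by
    rw [hy]
    exact S.tendsto'.atTop_mul_const hl2
  have hyt1 : Tendsto (fun j => y (j + 1)) atTop atTop := hyt.comp (tendsto_add_atTop_nat 1)
  have hδt : Tendsto δ atTop (𝓝 0) := by
    rw [hδ]
    have h1 : Tendsto (fun j => (D.pr j : ℝ) + 1) atTop atTop :=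
      tendsto_atTop_add_const_right _ _ (tendsto_natCast_atTop_atTop.comp D.tends)
    refine h1.inv_tendsto_atTop.congr fun j => ?_
    simp
  have hδt1 : Tendsto (fun j => δ (j + 1)) atTop (𝓝 0) := hδt.comp (tendsto_add_atTop_nat 1)
  have hrat : Tendsto (fun j => y j / y (j + 1)) atTop (𝓝 0) := by
    refine (S.ratio hγ0).congr fun j => ?_
    rw [hyj, hyj]
    rw [mul_div_mul_right _ _ hl2.ne']
  have hqt : Tendsto q atTop atTop := by
    rw [hq]
    exact (Real.tendsto_sqrt_atTop).comp S.tendsto'
  have hqyt : Tendsto (fun j => q j / y j) atTop (𝓝 0) := by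
    have h1 : Tendsto (fun j => (Real.log 2)⁻¹ * (q j)⁻¹) atTop (𝓝 ((Real.log 2)⁻¹ * 0)) :=
      (hqt.inv_tendsto_atTop).const_mul _
    rw [mul_zero] at h1
    refine h1.congr fun j => ?_
    have h2 : (n j : ℝ) = q j * q j := by rw [hqj, Real.mul_self_sqrt (hn j).le]
    have h3 : q j ≠ 0 := by
      intro h0
      rw [h0] at h2
      have := hn j
      rw [h2] at this
      simp at this
    rw [hyj, h2]
    field_simp
  have hqyt1 : Tendsto (fun j => q (j + 1) / y (j + 1)) atTop (𝓝 0) :=
    hqyt.comp (tendsto_add_atTop_nat 1)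
  have hinv1 : Tendsto (fun j => (y (j + 1))⁻¹) atTop (𝓝 0) := hyt1.inv_tendsto_atTop
  -- the ends of the windows
  obtain ⟨B, hB⟩ : ∃ B : ℕ → ℕ, B = fun j => ⌈(1 + δ j) * y j / l⌉₊ := ⟨_, rfl⟩
  obtain ⟨E, hE⟩ : ∃ E : ℕ → ℕ, E = fun j => ⌊(y (j + 1) - q (j + 1)) / l⌋₊ := ⟨_, rfl⟩
  have hB1 : ∀ j, (1 + δ j) * y j / l ≤ B j := fun j => by rw [hB]; exact Nat.le_ceil _
  have hB2 : ∀ j, (B j : ℝ) ≤ (1 + δ j) * y j / l + 1 := fun j => by
    rw [hB]
    refine (Nat.ceil_lt_add_one ?_).le
    have := hδpos j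
    have := hypos j
    positivity
  have hB3 : ∀ j, y j / l ≤ B j := fun j => by
    refine le_trans ?_ (hB1 j)
    have := hδpos j
    have := hypos j
    gcongr
    nlinarith
  have hE1 : ∀ j, (y (j + 1) - q (j + 1)) / l - 1 ≤ E j := fun j => by
    rw [hE]
    exact (Nat.sub_one_lt_floor _).le
  have hE2 : ∀ j, (E j : ℝ) ≤ y (j + 1) / l := fun j => by
    rw [hE]
    rcases le_or_gt 0 ((y (j + 1) - q (j + 1)) / l) with h | h
    · refine (Nat.floor_le h).trans ?_
      have := hqpos (j + 1)
      gcongr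
      linarith
    · have h1 : (⌊(y (j + 1) - q (j + 1)) / l⌋₊ : ℝ) = 0 := by
        rw [Nat.floor_of_nonpos h.le]
        norm_num
      change (⌊(y (j + 1) - q (j + 1)) / l⌋₊ : ℝ) ≤ _
      rw [h1]
      have := hypos (j + 1)
      positivity
  refine freq_of_windows (pos r X α β) (β - α) (by linarith) (by linarith) B E
    (fun j => (y j) ^ (1 - γ)) ?_ ?_ ?_ ?_ ?_ ?_ ?_
  · -- B ≤ E
    have h1 := hrat.eventually_lt_const (show (0 : ℝ) < 1 / 8 by norm_num)
    have h2 := hqyt1.eventually_lt_const (show (0 : ℝ) < 1 / 4 by norm_num)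
    filter_upwards [h1, h2, hyt1.eventually_ge_atTop (8 * l)] with j a1 a2 a3
    rw [div_lt_iff₀ (hypos (j + 1))] at a1 a2
    have h3 : (B j : ℝ) ≤ E j := by
      refine (hB2 j).trans (le_trans ?_ (hE1 j))
      have h4 : (1 + δ j) * y j / l ≤ 2 * y j / l := by
        have := hypos j
        have := hδ1 j
        gcongr
        linarith
      have h5 : 2 * y j / l + 2 ≤ (y (j + 1) - q (j + 1)) / l := by
        rw [div_add' _ _ _ hl.ne']
        gcongr
        linarith
      linarith
    exact_mod_cast h3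
  · refine Eventually.of_forall fun j => ?_
    have h1 : (E j : ℝ) ≤ B (j + 1) := (hE2 j).trans (hB3 (j + 1))
    exact_mod_cast h1
  · have h1 : Tendsto (fun j => y j / l) atTop atTop := hyt.atTop_div_const hl
    exact tendsto_natCast_atTop_iff.1 (tendsto_atTop_mono hB3 h1)
  · have h1 : Tendsto (fun j => 2 * (y j / y (j + 1)) + l * (y (j + 1))⁻¹) atTop (𝓝 (2 * 0 + l * 0)) :=
      (hrat.const_mul 2).add (hinv1.const_mul l)
    simp only [mul_zero, add_zero] at h1
    refine squeeze_zero (fun j => by positivity) (fun j => ?_) h1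
    have h3 : 0 < y (j + 1) / l := by have := hypos (j + 1); positivity
    calc (B j : ℝ) / B (j + 1) ≤ (2 * y j / l + 1) / (y (j + 1) / l) := by
          apply div_le_div₀ _ _ h3 (hB3 (j + 1))
          · have := hypos j; positivity
          · refine (hB2 j).trans ?_
            have := hypos j
            have := hδ1 j
            gcongr
            linarith
      _ = 2 * (y j / y (j + 1)) + l * (y (j + 1))⁻¹ := by
          have := (hypos (j + 1)).ne'
          field_simp
  · have h1 : Tendsto (fun j => δ (j + 1) + (q (j + 1) / y (j + 1) + 2 * l * (y (j + 1))⁻¹)) atTop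
        (𝓝 (0 + (0 + 2 * l * 0))) := hδt1.add (hqyt1.add (hinv1.const_mul _))
    simp only [mul_zero, add_zero] at h1
    refine squeeze_zero (fun j => ?_) (fun j => ?_) h1
    · apply div_nonneg _ (Nat.cast_nonneg _)
      have := (hE2 j).trans (hB3 (j + 1))
      linarith
    · have h3 : 0 < y (j + 1) / l := by have := hypos (j + 1); positivity
      have h4 : (B (j + 1) : ℝ) - E j ≤ (δ (j + 1) * y (j + 1) + q (j + 1)) / l + 2 := by
        have a1 := hB2 (j + 1)
        have a2 := hE1 j
        have a3 : (δ (j + 1) * y (j + 1) + q (j + 1)) / l =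
          (1 + δ (j + 1)) * y (j + 1) / l - (y (j + 1) - q (j + 1)) / l := by ring
        rw [a3]
        linarith
      calc ((B (j + 1) : ℝ) - E j) / B (j + 1) ≤
            ((δ (j + 1) * y (j + 1) + q (j + 1)) / l + 2) / (y (j + 1) / l) := by
              apply div_le_div₀ _ h4 h3 (hB3 (j + 1))
              have := hypos (j + 1)
              have := hδpos (j + 1)
              have := hqpos (j + 1)
              positivity
        _ = δ (j + 1) + (q (j + 1) / y (j + 1) + 2 * l * (y (j + 1))⁻¹) := by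
            have := (hypos (j + 1)).ne'
            field_simp
            ring
  · have h1 : Tendsto (fun j => l * (y j) ^ (-γ)) atTop (𝓝 (l * 0)) :=
      ((tendsto_rpow_neg_atTop hγ0).comp hyt).const_mul l
    rw [mul_zero] at h1
    refine squeeze_zero (fun j => by have := hypos j; positivity) (fun j => ?_) h1
    have h3 : 0 < y j / l := by have := hypos j; positivity
    calc (y j) ^ (1 - γ) / (B j : ℝ) ≤ (y j) ^ (1 - γ) / (y j / l) := by
          have := hypos j
          gcongr
          exact hB3 j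
      _ = l * (y j) ^ (-γ) := by
          rw [sub_eq_add_neg, Real.rpow_add (hypos j), Real.rpow_one]
          have := (hypos j).ne'
          field_simp
  · intro ε hε
    have hη : Tendsto (fun j => 2 * (P i).c * Real.exp (-(q (j + 1)))) atTop (𝓝 (2 * (P i).c * 0)) := by
      apply Tendsto.const_mul
      exact Real.tendsto_exp_neg_atTop_nhds_zero.comp (hqt.comp (tendsto_add_atTop_nat 1))
    rw [mul_zero] at hη
    have hprt : ∀ᶠ j in atTop, max (i + 1) r ≤ D.pr j := D.tends.eventually_ge_atTop _
    filter_upwards [hη.eventually_lt_const (show (0 : ℝ) < min (1 / 2) (ε / 16) by positivity),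
      hδt.eventually_lt_const (show (0 : ℝ) < ε / 12 by positivity), hprt,
      hqt.comp (tendsto_add_atTop_nat 1) |>.eventually_ge_atTop 3]
      with j a1 a2 a3 a5 u v hu huv hv hlen
    set η := 2 * (P i).c * Real.exp (-(q (j + 1))) with hηdef
    have hη0 : 0 < η := by positivity
    have hη1 : η ≤ 1 / 2 := a1.le.trans (min_le_left _ _)
    have hη2 : η ≤ ε / 16 := a1.le.trans (min_le_right _ _)
    have hi : i < D.pr j := lt_of_lt_of_le (Nat.lt_succ_self i) ((le_max_left _ _).trans a3)
    have hrp : r ≤ D.pr j := (le_max_right _ _).trans a3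
    have hgood := (D.good j).2.2.2 i hi r hr hrp
    rw [show (range j).image D.k = D.F j from rfl, ← D.val_succ S i j] at hgood
    have hlogH : Real.log ((2 ^ n j : ℕ) : ℝ) = y j := by
      rw [hyj]
      push_cast
      rw [Real.log_pow]
    rw [hlogH] at hgood
    -- the position `v`
    have hqle : q (j + 1) ≤ y (j + 1) := by
      by_contra hcon
      push Not at hcon
      -- then `v ≤ E j = 0`
      have h1 : E j = 0 := by
        rw [hE]
        apply Nat.floor_of_nonpos
        apply div_nonpos_of_nonpos_of_nonneg _ hl.le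
        linarith
      have h2 : B j = 0 := by omega
      have h3 := hB3 j
      rw [h2] at h3
      have : 0 < y j / l := by have := hypos j; positivity
      push_cast at h3
      linarith
    have hvE : (v : ℝ) * l ≤ y (j + 1) - q (j + 1) := by
      have h1 : (v : ℝ) ≤ (y (j + 1) - q (j + 1)) / l := by
        have h2 : (v : ℝ) ≤ E j := by exact_mod_cast hv
        refine h2.trans ?_
        rw [hE]
        apply Nat.floor_le
        apply div_nonneg _ hl.le
        linarith
      rwa [le_div_iff₀ hl] at h1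
    have heq : EquiW ((P i).val (D.F (j + 1))) r u v (δ j) := by
      by_contra hnot
      apply hgood
      refine ⟨u, v, hlen, ?_, ?_, ?_⟩
      · rw [← hldef]
        have h1 := S.up j
        rw [← hyj, ← hyj] at h1
        have := hqpos (j + 1)
        linarith
      · rw [← hldef]
        have h1 : (B j : ℝ) ≤ u := by exact_mod_cast hu
        have h2 := (hB1 j).trans h1
        rw [div_le_iff₀ hl] at h2
        rw [← hδj]
        exact h2
      · rw [← hδj]
        exact hnot
    have hlen0 : (0 : ℝ) ≤ (v : ℝ) - u := by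
      have : (u : ℝ) ≤ v := by exact_mod_cast huv
      linarith
    have hp := pert (y := X) huv heq (hδpos j).le hη0 hη1 ?_ α β ha hab hb
    · refine hp.trans ?_
      apply mul_le_mul_of_nonneg_right _ hlen0
      linarith
    · intro t ht1 ht2
      rw [abs_mul, abs_of_pos (show (0 : ℝ) < (r : ℝ) ^ t by
        have : (0 : ℝ) < r := by exact_mod_cast (by omega : 0 < r)
        positivity)]
      have h1 := hX (j + 1)
      have h2 : (r : ℝ) ^ t ≤ Real.exp (y (j + 1) - q (j + 1)) := by
        have h3 : (r : ℝ) ^ t = Real.exp (t * l) := by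
          rw [hldef, mul_comm, Real.exp_mul, Real.exp_log (by exact_mod_cast (by omega : 0 < r))]
          norm_cast
        rw [h3]
        apply Real.exp_le_exp.2
        refine le_trans ?_ hvE
        have : (t : ℝ) ≤ v := by exact_mod_cast ht2
        gcongr
      have h3 : ((1 : ℝ) / 2) ^ n (j + 1) = Real.exp (-(y (j + 1))) := by
        rw [hyj, Real.exp_neg, mul_comm, Real.exp_mul, Real.exp_log (by norm_num)]
        rw [one_div, inv_pow]
        norm_cast
      rw [h3] at h1
      calc |X - (P i).val (D.F (j + 1))| * (r : ℝ) ^ t ≤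
            (2 * (P i).c * Real.exp (-(y (j + 1)))) * Real.exp (y (j + 1) - q (j + 1)) := by
              gcongr
        _ = η := by
            rw [mul_assoc, ← Real.exp_add, hηdef]
            congr 2
            ring

end Data

end Pool.Agent.H608.Sp
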