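import Pool.Agent.H608.Sp.Joint

/-!
# Products and sums over sparse sets
-/

set_option autoImplicit false

namespace Pool.Agent.H608.Sp

open Finset Filter Topology
open Pool.Agent.H607.CF (cnt pos)
open Pool.Agent.W206.ND (ee NT AV)

lemma prod_bounds (F : Finset ℕ) (t : ℕ → ℝ) (ht : ∀ k, |t k| ≤ 1 / 2 * (1 / ((k : ℝ) + 1)))
    (hF : ∑ k ∈ F, (1 : ℝ) / (k + 1) ≤ 1 / 2) :
    3 / 4 ≤ ∏ k ∈ F, (1 - t k) ∧ ∏ k ∈ F, (1 - t k) ≤ 4 / 3 := by
  classical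
  -- both bounds by induction
  have ht1 : ∀ k, |t k| ≤ 1 / 2 := fun k => by
    refine (ht k).trans ?_
    have : (1 : ℝ) / ((k : ℝ) + 1) ≤ 1 := by
      rw [div_le_one (by positivity)]
      have : (0 : ℝ) ≤ k := Nat.cast_nonneg k
      linarith
    linarith
  have key : ∀ G : Finset ℕ, G ⊆ F → 1 - ∑ k ∈ G, 1 / 2 * ((1 : ℝ) / (k + 1)) ≤ ∏ k ∈ G, (1 - t k) ∧
      0 < ∏ k ∈ G, (1 - t k) ∧
      (∏ k ∈ G, (1 - t k)) * (1 - ∑ k ∈ G, 1 / 2 * ((1 : ℝ) / (k + 1))) ≤ 1 := by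
    intro G
    induction G using Finset.induction_on with
    | empty => intro _; simp
    | insert a G ha ih =>
      intro hG
      obtain ⟨i1, i2, i3⟩ := ih ((subset_insert _ _).trans hG)
      rw [prod_insert ha, sum_insert ha]
      have h1 := abs_le.1 (ht a)
      have h2 := abs_le.1 (ht1 a)
      set s := ∑ k ∈ G, 1 / 2 * ((1 : ℝ) / (k + 1)) with hs
      set p := ∏ k ∈ G, (1 - t k) with hp
      set a' := 1 / 2 * (1 / ((a : ℝ) + 1)) with ha'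
      have ha0 : 0 ≤ a' := by positivity
      have hs0 : 0 ≤ s := sum_nonneg fun k _ => by positivity
      have hs2 : a' + s ≤ 1 / 4 := by
        have h3 : a' + s = ∑ k ∈ insert a G, 1 / 2 * ((1 : ℝ) / (k + 1)) := by
          rw [sum_insert ha]
        rw [h3, ← mul_sum]
        have h4 : ∑ k ∈ insert a G, (1 : ℝ) / (k + 1) ≤ ∑ k ∈ F, (1 : ℝ) / (k + 1) :=
          sum_le_sum_of_subset_of_nonneg hG fun k _ _ => by positivity
        linarith
      refine ⟨?_, by nlinarith, ?_⟩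
      · nlinarith
      · have h5 : (1 - t a) * (1 - (a' + s)) ≤ 1 - s := by
          have h6 : (1 - t a) ≤ 1 + a' := by linarith
          nlinarith
        have h7 : (1 - t a) * p * (1 - (a' + s)) = p * ((1 - t a) * (1 - (a' + s))) := by ring
        rw [h7]
        calc p * ((1 - t a) * (1 - (a' + s))) ≤ p * (1 - s) := by gcongr
          _ ≤ 1 := i3
  obtain ⟨k1, k2, k3⟩ := key F (Subset.refl _)
  rw [← mul_sum] at k1 k3
  refine ⟨by linarith, ?_⟩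
  have h8 : 3 / 4 ≤ 1 - 1 / 2 * ∑ k ∈ F, (1 : ℝ) / (k + 1) := by linarith
  nlinarith

/-- the multiplicative process -/
noncomputable def mulProc (x a s : ℝ) (hx : x ≠ 0) (ha : a ≠ 0) (hs0 : 0 ≤ s) (hs1 : s < 1)
    (hb : ∀ k : ℕ, |a * (((k + 1 : ℕ) : ℝ) - s)⁻¹| ≤ 1 / 2 * (1 / ((k : ℝ) + 1))) : Proc where
  val F := x * ∏ k ∈ F, (1 - a * (((k + 1 : ℕ) : ℝ) - s)⁻¹)
  amp F := -a * (x * ∏ k ∈ F, (1 - a * (((k + 1 : ℕ) : ℝ) - s)⁻¹))
  s := s
  c := 1 + (2 * (|a| * |x|) + 2 * (|a| * |x|)⁻¹)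
  hs0 := hs0
  hs1 := hs1
  hc := by
    have : 0 ≤ 2 * (|a| * |x|) + 2 * (|a| * |x|)⁻¹ := by positivity
    linarith
  step F k hk := by
    rw [prod_insert fun h => absurd (hk k h) (lt_irrefl k)]
    ring
  lo F hF := by
    have h1 := (prod_bounds F (fun k => a * (((k + 1 : ℕ) : ℝ) - s)⁻¹) hb hF).1
    have hax : 0 < |a| * |x| := by positivity
    have e0 : |-a * (x * ∏ k ∈ F, (1 - a * (((k + 1 : ℕ) : ℝ) - s)⁻¹))| =
        |a| * |x| * |∏ k ∈ F, (1 - a * (((k + 1 : ℕ) : ℝ) - s)⁻¹)| := by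
      rw [abs_mul, abs_mul, abs_neg]
      ring
    rw [e0]
    have h2 : (3 / 4 : ℝ) ≤ |∏ k ∈ F, (1 - a * (((k + 1 : ℕ) : ℝ) - s)⁻¹)| := h1.trans (le_abs_self _)
    calc (1 + (2 * (|a| * |x|) + 2 * (|a| * |x|)⁻¹))⁻¹ ≤ (2 * (|a| * |x|)⁻¹)⁻¹ := by
          apply inv_anti₀ (by positivity)
          have : 0 ≤ 1 + 2 * (|a| * |x|) := by positivity
          linarith
      _ = |a| * |x| * (1 / 2) := by
          rw [mul_inv, inv_inv]
          ring
      _ ≤ |a| * |x| * |∏ k ∈ F, (1 - a * (((k + 1 : ℕ) : ℝ) - s)⁻¹)| := by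
          gcongr
          linarith
  hi F hF := by
    have h1 := (prod_bounds F (fun k => a * (((k + 1 : ℕ) : ℝ) - s)⁻¹) hb hF).1
    have h1' := (prod_bounds F (fun k => a * (((k + 1 : ℕ) : ℝ) - s)⁻¹) hb hF).2
    have hax : 0 < |a| * |x| := by positivity
    have e0 : |-a * (x * ∏ k ∈ F, (1 - a * (((k + 1 : ℕ) : ℝ) - s)⁻¹))| =
        |a| * |x| * |∏ k ∈ F, (1 - a * (((k + 1 : ℕ) : ℝ) - s)⁻¹)| := by
      rw [abs_mul, abs_mul, abs_neg]
      ring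
    rw [e0]
    have h2 : |∏ k ∈ F, (1 - a * (((k + 1 : ℕ) : ℝ) - s)⁻¹)| ≤ 2 := by
      rw [abs_of_nonneg (by linarith)]
      linarith
    have h3 : 0 ≤ 2 * (|a| * |x|)⁻¹ := by positivity
    calc |a| * |x| * |∏ k ∈ F, (1 - a * (((k + 1 : ℕ) : ℝ) - s)⁻¹)| ≤ |a| * |x| * 2 := by gcongr
      _ ≤ _ := by linarith

/-- the additive process -/
noncomputable def addProc (x a s : ℝ) (ha : a ≠ 0) (hs0 : 0 ≤ s) (hs1 : s < 1) : Proc where
  val F := x + a * ∑ k ∈ F, (((k + 1 : ℕ) : ℝ) - s)⁻¹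
  amp _ := a
  s := s
  c := 1 + (|a| + |a|⁻¹)
  hs0 := hs0
  hs1 := hs1
  hc := by
    have : 0 ≤ |a| + |a|⁻¹ := by positivity
    linarith
  step F k hk := by
    rw [sum_insert fun h => absurd (hk k h) (lt_irrefl k)]
    ring
  lo F _ := by
    have ha' : 0 < |a| := abs_pos.2 ha
    calc (1 + (|a| + |a|⁻¹))⁻¹ ≤ (|a|⁻¹)⁻¹ := by
          apply inv_anti₀ (by positivity)
          linarith
      _ = |a| := inv_inv _
  hi F _ := by
    have : 0 ≤ 1 + |a|⁻¹ := by positivity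
    linarith

/-- the nonzero integral combinations of the elements of a countable set, and `1` -/
lemma exists_enum (S : Set ℝ) (hS : S.Countable) : ∃ x : ℕ → ℝ, (∀ i, x i ≠ 0) ∧ (∃ i, x i = 1) ∧
    ∀ (n : ℕ) (α : Fin n → ℝ) (h : Fin n → ℤ), (∀ j, α j ∈ S) → ∑ j, (h j : ℝ) * α j ≠ 0 →
      ∃ i, x i = ∑ j, (h j : ℝ) * α j := by
  have : Countable S := hS
  set f : (Σ n : ℕ, (Fin n → ℤ) × (Fin n → S)) → ℝ := fun q => ∑ j, (q.2.1 j : ℝ) * (q.2.2 j : ℝ)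
    with hf
  have h1 : (Set.range f).Countable := Set.countable_range f
  set T : Set ℝ := ({z ∈ Set.range f | z ≠ 0}) ∪ {1} with hT
  have h2 : T.Countable := (h1.mono (Set.sep_subset _ _)).union (Set.countable_singleton 1)
  obtain ⟨x, hx⟩ := h2.exists_eq_range ⟨1, Or.inr rfl⟩
  have hmem : ∀ z, z ∈ T → ∃ i, x i = z := fun z hz => by
    rw [hx] at hz
    exact hz
  refine ⟨x, fun i => ?_, hmem 1 (Or.inr rfl), fun n α h hα hne => hmem _ (Or.inl ⟨?_, hne⟩)⟩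
  · have h3 : x i ∈ T := by
      rw [hx]
      exact ⟨i, rfl⟩
    rcases h3 with h3 | h3
    · exact h3.2
    · rw [Set.mem_singleton_iff.1 h3]
      exact one_ne_zero
  · exact ⟨⟨n, h, fun j => ⟨α j, hα j⟩⟩, rfl⟩

/-- linear independence over `ℚ` and integral combinations -/
lemma comb_ne_zero {n : ℕ} {α : Fin n → ℝ} (hα : LinearIndependent ℚ α) (h : Fin n → ℤ) (hh : h ≠ 0) :
    ∑ j, (h j : ℝ) * α j ≠ 0 := by
  intro h0
  apply hh
  rw [Fintype.linearIndependent_iff] at hα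
  have h1 := hα (fun j => (h j : ℚ)) (by
    rw [← h0]
    refine sum_congr rfl fun j _ => ?_
    rw [Rat.smul_def]
    push_cast
    rfl)
  ext j
  exact_mod_cast h1 j

end Pool.Agent.H608.Sp
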