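import Mathlib

/-!
# The product `√2 = (1 + 1) (1 - 1 / 3) (1 + 1 / 5) (1 - 1 / 7) ⋯`
-/

set_option autoImplicit false

namespace Pool.Agent.H608.Sp

open Finset Filter Topology

/-- convergence along the even and the odd numbers -/
lemma tendsto_even_odd (f : ℕ → ℝ) (x : ℝ) (h0 : Tendsto (fun n => f (2 * n)) atTop (𝓝 x))
    (h1 : Tendsto (fun n => f (2 * n + 1)) atTop (𝓝 x)) : Tendsto f atTop (𝓝 x) := by
  rw [Metric.tendsto_atTop] at h0 h1 ⊢
  intro ε hε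
  obtain ⟨N, hN⟩ := h0 ε hε
  obtain ⟨M, hM⟩ := h1 ε hε
  refine ⟨2 * N + 2 * M + 2, fun n hn => ?_⟩
  rcases Nat.even_or_odd' n with ⟨k, rfl | rfl⟩
  · exact hN k (by omega)
  · exact hM k (by omega)

lemma prod_sq : Tendsto (fun n : ℕ => ∏ i ∈ range n, (1 - 1 / (4 * (i : ℝ) + 2) ^ 2)) atTop
    (𝓝 (1 / Real.sqrt 2)) := by
  have hA := (Real.tendsto_euler_sin_prod (1 / 2)).comp
    (tendsto_id.const_mul_atTop' (show 0 < 2 by norm_num) : Tendsto (fun n : ℕ => 2 * n) atTop atTop)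
  have hB := Real.tendsto_euler_sin_prod (1 / 4)
  have e1 : Real.sin (Real.pi * (1 / 2)) = 1 := by
    rw [mul_one_div, Real.sin_pi_div_two]
  have e2 : Real.sin (Real.pi * (1 / 4)) = Real.sqrt 2 / 2 := by
    rw [mul_one_div, Real.sin_pi_div_four]
  rw [e1] at hA
  rw [e2] at hB
  have hs : (0 : ℝ) < Real.sqrt 2 := by positivity
  -- the identity
  have hid : ∀ n : ℕ, Real.pi * (1 / 2) * ∏ j ∈ range (2 * n), (1 - (1 / 2 : ℝ) ^ 2 / ((j : ℝ) + 1) ^ 2) =
      2 * (Real.pi * (1 / 4) * ∏ j ∈ range n, (1 - (1 / 4 : ℝ) ^ 2 / ((j : ℝ) + 1) ^ 2)) *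
        ∏ i ∈ range n, (1 - 1 / (4 * (i : ℝ) + 2) ^ 2) := by
    intro n
    induction n with
    | zero => simp; ring
    | succ n ih =>
      rw [show 2 * (n + 1) = 2 * n + 1 + 1 by ring, prod_range_succ, prod_range_succ,
        prod_range_succ _ n, prod_range_succ _ n]
      have h1 : (1 - (1 / 2 : ℝ) ^ 2 / (((2 * n : ℕ) : ℝ) + 1) ^ 2) = 1 - 1 / (4 * (n : ℝ) + 2) ^ 2 := by
        push_cast
        congr 1
        field_simp
        ring
      have h2 : (1 - (1 / 2 : ℝ) ^ 2 / (((2 * n + 1 : ℕ) : ℝ) + 1) ^ 2) =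
          1 - (1 / 4 : ℝ) ^ 2 / ((n : ℝ) + 1) ^ 2 := by
        push_cast
        congr 1
        field_simp
        ring
      rw [h1, h2]
      calc _ = (Real.pi * (1 / 2) * ∏ j ∈ range (2 * n), (1 - (1 / 2 : ℝ) ^ 2 / ((j : ℝ) + 1) ^ 2)) *
            ((1 - 1 / (4 * (n : ℝ) + 2) ^ 2) * (1 - (1 / 4 : ℝ) ^ 2 / ((n : ℝ) + 1) ^ 2)) := by ring
        _ = _ := by rw [ih]; ring
  have h3 : Tendsto (fun n : ℕ => (2 * (Real.pi * (1 / 4) *
      ∏ j ∈ range n, (1 - (1 / 4 : ℝ) ^ 2 / ((j : ℝ) + 1) ^ 2))) *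
        ∏ i ∈ range n, (1 - 1 / (4 * (i : ℝ) + 2) ^ 2)) atTop (𝓝 1) := by
    refine hA.congr fun n => ?_
    exact hid n
  have h4 : Tendsto (fun n : ℕ => 2 * (Real.pi * (1 / 4) *
      ∏ j ∈ range n, (1 - (1 / 4 : ℝ) ^ 2 / ((j : ℝ) + 1) ^ 2))) atTop (𝓝 (2 * (Real.sqrt 2 / 2))) :=
    hB.const_mul 2
  rw [show 2 * (Real.sqrt 2 / 2) = Real.sqrt 2 by ring] at h4
  have h5 := h3.div h4 hs.ne'
  refine h5.congr' ?_
  filter_upwards [h4.eventually_ne hs.ne'] with n hn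
  simp only [Pi.div_apply]
  rw [mul_div_cancel_left₀ _ hn]

/-- the factors of the product for `√2` -/
noncomputable def fac (k : ℕ) : ℝ := 1 + (-1) ^ k / (2 * (k : ℝ) + 1)

lemma fac_even (m : ℕ) : fac (2 * m) = 1 + 1 / (4 * (m : ℝ) + 1) := by
  unfold fac
  rw [pow_mul]
  push_cast
  norm_num
  ring

lemma fac_odd (m : ℕ) : fac (2 * m + 1) = 1 - 1 / (4 * (m : ℝ) + 3) := by
  unfold fac
  rw [pow_succ, pow_mul]
  push_cast
  norm_num
  rw [neg_div, ← sub_eq_add_neg, one_div]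
  congr 2
  ring

theorem prod_fac : Tendsto (fun N : ℕ => ∏ k ∈ range N, fac k) atTop (𝓝 (Real.sqrt 2)) := by
  have hs : (0 : ℝ) < Real.sqrt 2 := by positivity
  have hid : ∀ n : ℕ, (∏ k ∈ range (2 * n), fac k) * ∏ i ∈ range n, (1 - 1 / (4 * (i : ℝ) + 2) ^ 2) = 1 := by
    intro n
    induction n with
    | zero => simp
    | succ n ih =>
      rw [show 2 * (n + 1) = 2 * n + 1 + 1 by ring, prod_range_succ, prod_range_succ,
        prod_range_succ _ n, fac_even, fac_odd]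
      have h1 : (1 + 1 / (4 * (n : ℝ) + 1)) * (1 - 1 / (4 * (n : ℝ) + 3)) *
          (1 - 1 / (4 * (n : ℝ) + 2) ^ 2) = 1 := by
        have h2 : (4 * (n : ℝ) + 1) ≠ 0 := by positivity
        have h3 : (4 * (n : ℝ) + 3) ≠ 0 := by positivity
        have h4 : (4 * (n : ℝ) + 2) ≠ 0 := by positivity
        field_simp
        ring
      calc _ = ((∏ k ∈ range (2 * n), fac k) * ∏ i ∈ range n, (1 - 1 / (4 * (i : ℝ) + 2) ^ 2)) *
            ((1 + 1 / (4 * (n : ℝ) + 1)) * (1 - 1 / (4 * (n : ℝ) + 3)) *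
              (1 - 1 / (4 * (n : ℝ) + 2) ^ 2)) := by ring
        _ = 1 := by rw [ih, h1, one_mul]
  have heven : Tendsto (fun n : ℕ => ∏ k ∈ range (2 * n), fac k) atTop (𝓝 (Real.sqrt 2)) := by
    have h1 := prod_sq.inv₀ (by positivity)
    rw [one_div, inv_inv] at h1
    refine h1.congr fun n => ?_
    exact inv_eq_of_mul_eq_one_left (hid n)
  apply tendsto_even_odd
  · exact heven
  · have h1 : Tendsto (fun n : ℕ => 1 + 1 / (4 * (n : ℝ) + 1)) atTop (𝓝 (1 + 0)) := by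
      apply Tendsto.const_add
      have h2 : Tendsto (fun n : ℕ => 4 * (n : ℝ) + 1) atTop atTop :=
        tendsto_atTop_add_const_right _ _ (tendsto_natCast_atTop_atTop.const_mul_atTop (by norm_num))
      refine h2.inv_tendsto_atTop.congr fun n => ?_
      simp
    rw [add_zero] at h1
    have h2 := heven.mul h1
    rw [mul_one] at h2
    refine h2.congr fun n => ?_
    rw [prod_range_succ, fac_even]

end Pool.Agent.H608.Sp
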