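import Pool.Graph.R_pool_sql_team_seeded_620a6dc7.Helper478_Shift.Fields

/-!
# The digits of `c + x / (m - s)` for most integers `m` of a dyadic interval

`BadY y γ δ r z`: the expansion of `z` in base `r` has a block of at least `y ^ (1 - γ)` digits, between
the positions `(1 + δ) y / log r` and `y ^ (1 + γ) / log r`, whose discrepancy is greater than `δ`.
-/

set_option autoImplicit false

namespace Pool.Agent.H608.Sp

open Finset Filter Topology
open Pool.Agent.Helper478.Shift (rangeH BadW equiW_shift)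
open Pool.Agent.Helper478.Surds (EquiW)

/-- `z` has a bad window of digits in base `r`, at the scale `y` -/
def BadY (y γ δ : ℝ) (r : ℕ) (z : ℝ) : Prop :=
  ∃ u v : ℕ, y ^ (1 - γ) ≤ (v : ℝ) - u ∧ v * Real.log r ≤ y ^ (1 + γ) ∧
    (1 + δ) * y ≤ u * Real.log r ∧ ¬ EquiW z r u v δ

set_option maxHeartbeats 4000000 in
theorem stage : ∃ γ : ℝ, 0 < γ ∧ γ ≤ 1 / 20 ∧ ∀ δ : ℝ, 0 < δ → ∀ R : ℕ, ∃ H₀ : ℕ,
    ∀ (H r : ℕ) (c x s : ℝ), H₀ ≤ H → 2 ≤ r → r ≤ R → 0 ≤ s → s < 1 →
      Real.exp (-(Real.log H) ^ (2 / 5 : ℝ)) ≤ |x| → |x| ≤ Real.exp ((Real.log H) ^ (2 / 5 : ℝ)) →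
      (({m : ℕ | H < m ∧ m ≤ 2 * H ∧ BadY (Real.log H) γ δ r (c + x * ((m : ℝ) - s)⁻¹)}.ncard : ℕ) : ℝ) ≤
        H * Real.exp (-(2 * (Real.log H) ^ (2 / 5 : ℝ))) := by
  classical
  obtain ⟨γ, hγ0, hγ1, hr⟩ := rangeH
  refine ⟨γ, hγ0, hγ1, fun δ hδ R => ?_⟩
  obtain ⟨H₀, hH₀⟩ := hr (-1) le_rfl (by norm_num) (by norm_num) (δ / 2) (by positivity) δ hδ
  have ev1 : ∀ᶠ y : ℝ in atTop, Real.log ((R : ℝ) + 2) < y ^ (2 / 5 : ℝ) :=
    (tendsto_rpow_atTop (by norm_num)).eventually_gt_atTop _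
  have ev2 : ∀ᶠ y : ℝ in atTop, 2 * Real.log ((R : ℝ) + 2) / δ ≤ y := eventually_ge_atTop _
  have hlog : Tendsto (fun N : ℕ => Real.log N) atTop atTop :=
    Real.tendsto_log_atTop.comp tendsto_natCast_atTop_atTop
  obtain ⟨H₁, hH₁⟩ := eventually_atTop.1 (hlog.eventually (ev1.and (ev2.and (eventually_ge_atTop 1))))
  refine ⟨max (max H₀ H₁) 2, ?_⟩
  intro H r c x s hH hr2 hrR hs0 hs1 hx1 hx2
  obtain ⟨f1, f2, f3⟩ := hH₁ H (le_trans (le_trans (le_max_right _ _) (le_max_left _ _)) hH)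
  have hHH₀ : H₀ ≤ H := le_trans (le_trans (le_max_left _ _) (le_max_left _ _)) hH
  have hH2 : 2 ≤ H := le_trans (le_max_right _ _) hH
  have hH0 : (0 : ℝ) < H := by exact_mod_cast (by omega : 0 < H)
  set y := Real.log H with hy
  have hHexp : (H : ℝ) = Real.exp y := (Real.exp_log hH0).symm
  set L := y ^ (2 / 5 : ℝ) with hL
  have hR0 : (0 : ℝ) ≤ R := Nat.cast_nonneg R
  have hrR' : (r : ℝ) ≤ R := by exact_mod_cast hrR
  have hr2' : (2 : ℝ) ≤ r := by exact_mod_cast hr2
  have hRL : (R : ℝ) + 2 < Real.exp L := by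
    rw [← Real.log_lt_iff_lt_exp (by linarith)]
    exact f1
  have hlogr : 0 < Real.log r := Real.log_pos (by linarith)
  have hlogrR : Real.log r ≤ Real.log ((R : ℝ) + 2) := Real.log_le_log (by linarith) (by linarith)
  have hlogr2 : Real.log r ≤ δ / 2 * y := by
    have h1 : 2 * Real.log ((R : ℝ) + 2) ≤ y * δ := by rwa [div_le_iff₀ hδ] at f2
    linarith
  have hL0 : 0 < L := by linarith [Real.log_nonneg (show (1 : ℝ) ≤ (R : ℝ) + 2 by linarith)]
  set w : ℕ := ⌈y / Real.log r⌉₊ with hw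
  have hw1 : y ≤ w * Real.log r := by
    have := Nat.le_ceil (y / Real.log r)
    rwa [div_le_iff₀ hlogr] at this
  have hw2 : w * Real.log r ≤ y + Real.log r := by
    have h1 : (w : ℝ) < y / Real.log r + 1 := Nat.ceil_lt_add_one (by positivity)
    have h2 : (w : ℝ) * Real.log r ≤ (y / Real.log r + 1) * Real.log r := by gcongr
    have h3 : (y / Real.log r + 1) * Real.log r = y + Real.log r := by field_simp
    linarith
  have hrw : (r : ℝ) ^ w = Real.exp (w * Real.log r) := by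
    rw [mul_comm, Real.exp_mul, Real.exp_log (by linarith)]
    norm_cast
  have hrwlo : (H : ℝ) ≤ (r : ℝ) ^ w := by
    rw [hrw, hHexp]
    exact Real.exp_le_exp.2 hw1
  have hrwhi : (r : ℝ) ^ w ≤ H * r := by
    rw [hrw, hHexp, ← Real.exp_log (show (0 : ℝ) < r by linarith), ← Real.exp_add, Real.log_exp]
    exact Real.exp_le_exp.2 hw2
  have hbound := hH₀ H (c * (r : ℝ) ^ w) (x * (r : ℝ) ^ w) s H (2 * H) hHH₀ hs0 hs1 ?_ ?_ ?_ ?_
  · refine le_trans ?_ hbound
    have hsub : {m : ℕ | H < m ∧ m ≤ 2 * H ∧ BadY y γ δ r (c + x * ((m : ℝ) - s)⁻¹)} ⊆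
        {m : ℕ | H < m ∧ m ≤ 2 * H ∧
          BadW H (δ / 2) γ δ (c * (r : ℝ) ^ w + x * (r : ℝ) ^ w * ((m : ℝ) - s) ^ (-1 : ℝ))} := by
      rintro m ⟨hm1, hm2, u, v, huv, hv, hu, hnot⟩
      refine ⟨hm1, hm2, r, u - w, v - w, hr2, ?_⟩
      have huv' : u ≤ v := by
        have h1 : 0 ≤ y ^ (1 - γ) := Real.rpow_nonneg (by linarith) _
        have : (u : ℝ) ≤ v := by linarith
        exact_mod_cast this
      have hwu : w ≤ u := by
        by_contra hcon
        push Not at hcon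
        have h1 : (u : ℝ) + 1 ≤ w := by exact_mod_cast hcon
        have h2 : ((u : ℝ) + 1) * Real.log r ≤ w * Real.log r := by gcongr
        have h3 : 0 < δ * y := by positivity
        nlinarith
      have e1 : ((v - w : ℕ) : ℝ) - ((u - w : ℕ) : ℝ) = v - u := by
        rw [Nat.cast_sub (hwu.trans huv'), Nat.cast_sub hwu]
        ring
      refine ⟨by rw [e1]; exact huv, ?_, ?_, ?_⟩
      · rw [Nat.cast_sub (hwu.trans huv'), sub_mul]
        have : 0 ≤ (w : ℝ) * Real.log r := by positivity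
        linarith
      · rw [hHexp, ← Real.exp_mul]
        have h1 : (r : ℝ) ^ (u - w) = Real.exp ((u - w : ℕ) * Real.log r) := by
          rw [mul_comm, Real.exp_mul, Real.exp_log (by linarith)]
          norm_cast
        rw [h1]
        apply Real.exp_le_exp.2
        rw [Nat.cast_sub hwu, sub_mul]
        nlinarith
      · intro hq
        apply hnot
        apply equiW_shift _ r w u v _ hwu huv'
        rw [Real.rpow_neg_one] at hq
        have e2 : (c + x * ((m : ℝ) - s)⁻¹) * (r : ℝ) ^ w =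
            c * (r : ℝ) ^ w + x * (r : ℝ) ^ w * ((m : ℝ) - s)⁻¹ := by ring
        rw [e2]
        exact hq
    exact_mod_cast Set.ncard_le_ncard hsub ((Set.finite_Iic (2 * H)).subset fun m hm => hm.2.1)
  · have h1 : x ≠ 0 := by
      intro h0
      rw [h0, abs_zero] at hx1
      linarith [Real.exp_pos (-L)]
    have : (r : ℝ) ^ w ≠ 0 := by positivity
    exact mul_ne_zero h1 this
  · have h1 : Real.exp (-L) ≤ 1 := Real.exp_le_one_iff.2 (by linarith)
    nlinarith
  · push_cast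
    have h1 : (2 : ℝ) ≤ Real.exp (3 * L) := by
      have h2 : Real.exp L ≤ Real.exp (3 * L) := Real.exp_le_exp.2 (by linarith)
      linarith
    nlinarith
  · intro N hN1 hN2
    have hN1' : (H : ℝ) ≤ N := by exact_mod_cast hN1
    have hN2' : (N : ℝ) ≤ 2 * H := by exact_mod_cast hN2
    have hN0 : (0 : ℝ) < N := lt_of_lt_of_le hH0 hN1'
    rw [abs_mul, abs_of_pos (show (0 : ℝ) < (r : ℝ) ^ w by positivity), Real.rpow_neg_one,
      ← div_eq_mul_inv]
    constructor
    · rw [le_div_iff₀ hN0]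
      have h3 : Real.exp (-(3 * L)) ≤ 1 / 2 * Real.exp (-L) := by
        have h4 : Real.exp (-(3 * L)) = Real.exp (-(2 * L)) * Real.exp (-L) := by
          rw [← Real.exp_add]; ring_nf
        rw [h4]
        gcongr
        rw [Real.exp_neg, ← one_div]
        apply one_div_le_one_div_of_le (by norm_num)
        have h5 : Real.exp L ≤ Real.exp (2 * L) := Real.exp_le_exp.2 (by linarith)
        linarith
      calc Real.exp (-(3 * L)) * N ≤ 1 / 2 * Real.exp (-L) * (2 * H) := by gcongr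
        _ = Real.exp (-L) * H := by ring
        _ ≤ |x| * (r : ℝ) ^ w := by gcongr
    · rw [div_le_iff₀ hN0]
      have h3 : (r : ℝ) ≤ Real.exp (2 * L) := by
        have h4 : Real.exp L ≤ Real.exp (2 * L) := Real.exp_le_exp.2 (by linarith)
        linarith
      have h4 : Real.exp (3 * L) = Real.exp L * Real.exp (2 * L) := by
        rw [← Real.exp_add]
        congr 1
        ring
      rw [h4]
      calc |x| * (r : ℝ) ^ w ≤ Real.exp L * (H * r) :=
            mul_le_mul hx2 hrwhi (by positivity) (by positivity)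
        _ ≤ Real.exp L * (N * Real.exp (2 * L)) :=
            mul_le_mul_of_nonneg_left (mul_le_mul hN1' h3 (by positivity) (by positivity)) (by positivity)
        _ = Real.exp L * Real.exp (2 * L) * N := by ring

end Pool.Agent.H608.Sp
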