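import Pool.Agent.H608.Sp.Mul

/-!
# Sums and products over one sparse set
-/

set_option autoImplicit false

namespace Pool.Agent.H608.Sp

open Finset Filter Topology
open Pool.Agent.H607.CF (cnt pos)
open Pool.Agent.W206.ND (ee NT AV)

/-- the affine combinations with integral coefficients of the elements of a countable set -/
lemma exists_enum_pair (S : Set ℝ) (hS : S.Countable) : ∃ x : ℕ → ℝ × ℝ, (∀ i, (x i).1 ≠ 0) ∧
    (∃ i, x i = (1, 0)) ∧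
    ∀ (n : ℕ) (α β : Fin n → ℝ) (h : Fin n → ℤ), (∀ j, α j ∈ S) → (∀ j, β j ∈ S) →
      ∑ j, (h j : ℝ) * α j ≠ 0 →
      ∃ i, x i = (∑ j, (h j : ℝ) * α j, ∑ j, (h j : ℝ) * β j) := by
  have : Countable S := hS
  set f : (Σ n : ℕ, (Fin n → ℤ) × ((Fin n → S) × (Fin n → S))) → ℝ × ℝ :=
    fun q => (∑ j, (q.2.1 j : ℝ) * (q.2.2.1 j : ℝ), ∑ j, (q.2.1 j : ℝ) * (q.2.2.2 j : ℝ)) with hf
  have h1 : (Set.range f).Countable := Set.countable_range f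
  set T : Set (ℝ × ℝ) := ({z ∈ Set.range f | z.1 ≠ 0}) ∪ {(1, 0)} with hT
  have h2 : T.Countable := (h1.mono (Set.sep_subset _ _)).union (Set.countable_singleton _)
  obtain ⟨x, hx⟩ := h2.exists_eq_range ⟨(1, 0), Or.inr rfl⟩
  have hmem : ∀ z, z ∈ T → ∃ i, x i = z := fun z hz => by
    rw [hx] at hz
    exact hz
  refine ⟨x, fun i => ?_, hmem _ (Or.inr rfl), fun n α β h hα hβ hne => hmem _ (Or.inl ⟨?_, hne⟩)⟩
  · have h3 : x i ∈ T := by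
      rw [hx]
      exact ⟨i, rfl⟩
    rcases h3 with h3 | h3
    · exact h3.2
    · rw [Set.mem_singleton_iff.1 h3]
      exact one_ne_zero
  · exact ⟨⟨n, h, fun j => ⟨α j, hα j⟩, fun j => ⟨β j, hβ j⟩⟩, rfl⟩

/-- the multiplicative process with a constant added -/
noncomputable def mulProc' (x y a s : ℝ) (hx : x ≠ 0) (ha : a ≠ 0) (hs0 : 0 ≤ s) (hs1 : s < 1)
    (hb : ∀ k : ℕ, |a * (((k + 1 : ℕ) : ℝ) - s)⁻¹| ≤ 1 / 2 * (1 / ((k : ℝ) + 1))) : Proc where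
  val F := y + (mulProc x a s hx ha hs0 hs1 hb).val F
  amp F := (mulProc x a s hx ha hs0 hs1 hb).amp F
  s := s
  c := (mulProc x a s hx ha hs0 hs1 hb).c
  hs0 := hs0
  hs1 := hs1
  hc := (mulProc x a s hx ha hs0 hs1 hb).hc
  step F k hk := by
    rw [(mulProc x a s hx ha hs0 hs1 hb).step F k hk]
    simp only [mulProc]
    ring
  lo F hF := (mulProc x a s hx ha hs0 hs1 hb).lo F hF
  hi F hF := (mulProc x a s hx ha hs0 hs1 hb).hi F hF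

/-- the additive family -/
noncomputable def addFam (z a s : ℝ) (ha : a ≠ 0) (hs0 : 0 ≤ s) (hs1 : s < 1) (x : ℝ × ℝ)
    (hx : x.1 ≠ 0) : Proc :=
  addProc (x.2 + x.1 * z) (x.1 * a) s (mul_ne_zero hx ha) hs0 hs1

/-- the multiplicative family -/
noncomputable def mulFam (z a s : ℝ) (hz : z ≠ 0) (ha : a ≠ 0) (hs0 : 0 ≤ s) (hs1 : s < 1)
    (hb : ∀ k : ℕ, |a * (((k + 1 : ℕ) : ℝ) - s)⁻¹| ≤ 1 / 2 * (1 / ((k : ℝ) + 1))) (x : ℝ × ℝ)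
    (hx : x.1 ≠ 0) : Proc :=
  mulProc' (x.1 * z) x.2 a s (mul_ne_zero hx hz) ha hs0 hs1 hb

/-- a linear family of limits -/
lemma family_joint (S : Set ℝ) (x : ℕ → ℝ × ℝ) (hx : ∀ (n : ℕ) (α β : Fin n → ℝ) (h : Fin n → ℤ),
      (∀ j, α j ∈ S) → (∀ j, β j ∈ S) → ∑ j, (h j : ℝ) * α j ≠ 0 →
      ∃ i, x i = (∑ j, (h j : ℝ) * α j, ∑ j, (h j : ℝ) * β j)) (Z : ℝ)
    (hZ : ∀ i b, 2 ≤ b → Freq b ((x i).2 + (x i).1 * Z)) (n : ℕ) (α β : Fin n → ℝ)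
    (hα : ∀ j, α j ∈ S) (hβ : ∀ j, β j ∈ S) (hlin : LinearIndependent ℚ α) (b : ℕ) (hb : 2 ≤ b) :
    NT b (fun j => α j * Z + β j) := by
  apply nt_of_freq b n _ hb
  intro h hh
  obtain ⟨i, hi⟩ := hx n α β h hα hβ (comb_ne_zero hlin h hh)
  have h1 : ∑ j, (h j : ℝ) * (α j * Z + β j) = (x i).2 + (x i).1 * Z := by
    rw [hi]
    simp only
    rw [sum_mul, ← sum_add_distrib]
    exact sum_congr rfl fun j _ => by ring
  rw [h1]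
  exact hZ i b hb

open Classical in
/-- **One sparse set for a series and a product**: `z₁ + a₁ ∑ 1/(m + 1 - s₁)` and
`z₂ ∏ (1 - a₂/(m + 1 - s₂))` over the sparse set `E`. -/
theorem two : ∃ C : ℝ, 0 < C ∧ ∀ (z₁ a₁ s₁ z₂ a₂ s₂ : ℝ), a₁ ≠ 0 → 0 ≤ s₁ → s₁ < 1 → z₂ ≠ 0 →
    a₂ ≠ 0 → 0 ≤ s₂ → s₂ < 1 →
    (∀ k : ℕ, |a₂ * (((k + 1 : ℕ) : ℝ) - s₂)⁻¹| ≤ 1 / 2 * (1 / ((k : ℝ) + 1))) →
    ∀ A : Set ℕ, Rich A → ∀ M : ℕ, ∀ S : Set ℝ, S.Countable →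
      ∃ (E : Set ℕ) (σ ρ : ℝ), E ⊆ A ∧ (∀ m ∈ E, M ≤ m) ∧
        (∀ K : ℕ, 16 ≤ K → (({m : ℕ | m ∈ E ∧ m ≤ K}.ncard : ℕ) : ℝ) ≤
          C * Real.log (Real.log (Real.log K))) ∧
        Tendsto (fun N : ℕ => z₁ + a₁ * ∑ k ∈ (range N).filter (· ∈ E), (((k + 1 : ℕ) : ℝ) - s₁)⁻¹)
          atTop (𝓝 σ) ∧
        Tendsto (fun N : ℕ => z₂ * ∏ k ∈ (range N).filter (· ∈ E), (1 - a₂ * (((k + 1 : ℕ) : ℝ) - s₂)⁻¹))
          atTop (𝓝 ρ) ∧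
        (∀ b : ℕ, 2 ≤ b → NT b (fun _ : Fin 1 => σ)) ∧ (∀ b : ℕ, 2 ≤ b → NT b (fun _ : Fin 1 => ρ)) ∧
        (∀ (n : ℕ) (α β : Fin n → ℝ), (∀ j, α j ∈ S) → (∀ j, β j ∈ S) → LinearIndependent ℚ α →
          ∀ b : ℕ, 2 ≤ b → NT b (fun j => α j * σ + β j) ∧ NT b (fun j => α j * ρ + β j)) := by
  obtain ⟨C, hC, hmaster⟩ := master
  refine ⟨C, hC, fun z₁ a₁ s₁ z₂ a₂ s₂ ha₁ hs10 hs11 hz₂ ha₂ hs20 hs21 hb A hA M S hS => ?_⟩
  obtain ⟨x, hx0, ⟨i₁, hi₁⟩, hx⟩ := exists_enum_pair (S ∪ {0, 1})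
    (hS.union ((Set.finite_singleton _).insert _).countable)
  set P : ℕ → Proc := fun i => if i % 2 = 0 then addFam z₁ a₁ s₁ ha₁ hs10 hs11 (x (i / 2)) (hx0 _)
    else mulFam z₂ a₂ s₂ hz₂ ha₂ hs20 hs21 hb (x (i / 2)) (hx0 _) with hP
  have hP0 : ∀ i, P (2 * i) = addFam z₁ a₁ s₁ ha₁ hs10 hs11 (x i) (hx0 _) := by
    intro i
    simp only [hP]
    rw [if_pos (by omega)]
    congr 1
    all_goals simp
  have hP1 : ∀ i, P (2 * i + 1) = mulFam z₂ a₂ s₂ hz₂ ha₂ hs20 hs21 hb (x i) (hx0 _) := by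
    intro i
    simp only [hP]
    rw [if_neg (by omega)]
    have : (2 * i + 1) / 2 = i := by omega
    simp only [this]
  obtain ⟨E, _, hEA, hEK, hE⟩ := hmaster P A hA M
  obtain ⟨σ, hσ1, _⟩ := hE (2 * i₁)
  obtain ⟨ρ, hρ1, _⟩ := hE (2 * i₁ + 1)
  rw [hP0] at hσ1
  rw [hP1] at hρ1
  simp only [addFam, addProc, hi₁, zero_add, one_mul] at hσ1
  simp only [mulFam, mulProc', mulProc, hi₁, zero_add, one_mul] at hρ1
  have hσ : ∀ i b, 2 ≤ b → Freq b ((x i).2 + (x i).1 * σ) := by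
    intro i b hb2
    obtain ⟨X, hX1, hX2⟩ := hE (2 * i)
    rw [hP0] at hX1
    have h1 : X = (x i).2 + (x i).1 * σ := by
      apply tendsto_nhds_unique hX1
      have h2 := (hσ1.const_mul (x i).1).const_add (x i).2
      refine h2.congr fun N => ?_
      simp only [addFam, addProc]
      ring
    rw [← h1]
    exact hX2 b hb2
  have hρ : ∀ i b, 2 ≤ b → Freq b ((x i).2 + (x i).1 * ρ) := by
    intro i b hb2
    obtain ⟨X, hX1, hX2⟩ := hE (2 * i + 1)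
    rw [hP1] at hX1
    have h1 : X = (x i).2 + (x i).1 * ρ := by
      apply tendsto_nhds_unique hX1
      have h2 := (hρ1.const_mul (x i).1).const_add (x i).2
      refine h2.congr fun N => ?_
      simp only [mulFam, mulProc', mulProc]
      ring
    rw [← h1]
    exact hX2 b hb2
  have h1S : (1 : ℝ) ∈ S ∪ {0, 1} := Or.inr (Or.inr rfl)
  have h0S : (0 : ℝ) ∈ S ∪ {0, 1} := Or.inr (Or.inl rfl)
  have hlin1 : LinearIndependent ℚ (fun _ : Fin 1 => (1 : ℝ)) := by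
    apply LinearIndependent.of_subsingleton (0 : Fin 1)
    exact one_ne_zero
  refine ⟨E, σ, ρ, fun k hk => (hEA k hk).1, fun k hk => (hEA k hk).2, hEK, hσ1, hρ1, ?_, ?_, ?_⟩
  · intro b hb2
    have h1 := family_joint (S ∪ {0, 1}) x hx σ hσ 1 (fun _ => 1) (fun _ => 0) (fun _ => h1S)
      (fun _ => h0S) hlin1 b hb2
    simpa using h1
  · intro b hb2
    have h1 := family_joint (S ∪ {0, 1}) x hx ρ hρ 1 (fun _ => 1) (fun _ => 0) (fun _ => h1S)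
      (fun _ => h0S) hlin1 b hb2
    simpa using h1
  · intro n α β hα hβ hlin b hb2
    exact ⟨family_joint (S ∪ {0, 1}) x hx σ hσ n α β (fun j => Or.inl (hα j)) (fun j => Or.inl (hβ j))
      hlin b hb2, family_joint (S ∪ {0, 1}) x hx ρ hρ n α β (fun j => Or.inl (hα j))
      (fun j => Or.inl (hβ j)) hlin b hb2⟩

end Pool.Agent.H608.Sp
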